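import Pool.Agent.BBP.Defs2
import Pool.Agent.VGen.HasSwap

/-!
# The exchange of two factors
-/

set_option autoImplicit false

noncomputable section

namespace Pool.Agent.BBP

open Pool.Agent.ZCyc Pool.Agent.DCI57 Pool.Agent.BBM
open Pool.Agent.GBB (zeta psi chi Typ hasSwap_gen)
open scoped LinearAlgebra.Projectivization

theorem swap_of_minors {S : Type} (Φ : Fam S) [∀ s, NeZero (Φ.d s)]
    (s : S) (hN : Φ.N s = Φ.n s + Φ.r s + 1)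
    (hc : ∀ f : Fin (Φ.r s) → Fin (Φ.N s), Function.Injective f →
      (Matrix.of fun i j => Φ.c s i (f j)).det ≠ 0)
    (a : Fin (Φ.N s) → ZMod (Φ.d s)) (t : (ZMod (Φ.d s))ˣ) (b : Fin (Φ.N s) → ℕ)
    (h : Typ (Φ.r s) a t b) {p q : ℙ ℂ (Fin (Φ.N s) → ℂ)} (hp : p ∈ Diag (Φ.d s) (Φ.c s))
    (hq : q ∈ Diag (Φ.d s) (Φ.c s)) :
    op2x (zeta (Φ.d s)) (zeta (Φ.d s)) (chi a) (chi a) (Finsupp.single (p, q) 1) -
        (-1 : ℂ) ^ Φ.n s •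
          op2x (zeta (Φ.d s)) (zeta (Φ.d s)) (chi a) (chi a) (Finsupp.single (q, p) 1) ∈
      ratEquiv2x ℂ (Diag (Φ.d s) (Φ.c s)) (Diag (Φ.d s) (Φ.c s)) :=
  hasSwap_gen hN hc a t b h p q hp hq

end Pool.Agent.BBP
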