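import Pool.Agent.BBP.Defs2
import Pool.Agent.DCI57.Relation

/-!
# Morphisms respect rational equivalence
-/

set_option autoImplicit false

noncomputable section

namespace Pool.Agent.BBP

open Pool.Agent.ZCyc Pool.Agent.DCI57 Pool.Agent.BBM
open Pool.Agent.GBB (zeta psi chi Typ zeta_prim zeta_pow psi_zero psi_add)
open scoped LinearAlgebra.Projectivization

variable {S : Type} [Fintype S] [DecidableEq S] {Φ : Fam S} {m m' k : S → ℕ}

/-- the coordinates of the image under a diagonal automorphism -/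
private theorem fn_mul_rep {d N : ℕ} (ζ : Fin N → rootsOfUnity d ℂ) (p : ℙ ℂ (Fin N → ℂ)) :
    ∃ a : ℂˣ, ∀ j, (mul ζ p).rep j = (a : ℂ) * (((ζ j : ℂˣ) : ℂ) * p.rep j) := by
  obtain ⟨a, ha⟩ := Projectivization.exists_smul_eq_mk_rep ℂ
    (fun j => ((ζ j : ℂˣ) : ℂ) * p.rep j) (mul_ne ζ p)
  refine ⟨a, fun j => ?_⟩
  have h2 := congrFun ha j
  rw [Pi.smul_apply, Units.smul_def, smul_eq_mul] at h2
  exact h2.symm

private theorem fn_one {d N : ℕ} (p : ℙ ℂ (Fin N → ℂ)) :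
    mul (1 : Fin N → rootsOfUnity d ℂ) p = p := by
  have h1 : (fun j => (((1 : Fin N → rootsOfUnity d ℂ) j : ℂˣ) : ℂ) * p.rep j) = p.rep := by
    funext j
    simp
  unfold mul
  conv_rhs => rw [← p.mk_rep]
  rw [Projectivization.mk_eq_mk_iff']
  exact ⟨1, by rw [one_smul, h1]⟩

private theorem fn_mul {d N : ℕ} (g h : Fin N → rootsOfUnity d ℂ) (p : ℙ ℂ (Fin N → ℂ)) :
    mul (g * h) p = mul g (mul h p) := by
  obtain ⟨a, ha⟩ := fn_mul_rep h p
  have h1 : mul g (mul h p) = Projectivization.mk ℂ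
      (fun j => ((g j : ℂˣ) : ℂ) * (mul h p).rep j) (mul_ne g (mul h p)) := rfl
  rw [h1]
  unfold mul
  rw [Projectivization.mk_eq_mk_iff']
  refine ⟨(a : ℂ)⁻¹, ?_⟩
  funext j
  rw [Pi.smul_apply, smul_eq_mul]
  have h2 : (Projectivization.mk ℂ (fun j => ((h j : ℂˣ) : ℂ) * p.rep j) (mul_ne h p)).rep j =
      (a : ℂ) * (((h j : ℂˣ) : ℂ) * p.rep j) := ha j
  rw [h2]
  have h3 : (((g * h) j : ℂˣ) : ℂ) = ((g j : ℂˣ) : ℂ) * ((h j : ℂˣ) : ℂ) := by
    simp
  rw [h3]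
  have ha0 : (a : ℂ) ≠ 0 := a.ne_zero
  field_simp

private theorem fn_act_one (s : S) (p : Φ.P s) : Φ.act s 1 p = p :=
  Subtype.ext (fn_one p.1)

private theorem fn_act_mul (s : S) (g h : Φ.G s) (p : Φ.P s) :
    Φ.act s (g * h) p = Φ.act s g (Φ.act s h p) :=
  Subtype.ext (fn_mul g h p.1)

/-- the composition of a morphism from a curve with a component -/
private def compP {F : Type} [Field F] [Algebra ℂ F] (P : ∀ i : Idx m, Fin (Φ.N i.1) → F) {s : S}
    (c : Comp Φ.P Φ.G m s) : Fin (Φ.N s) → F :=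
  match c with
  | .const p => fun l => algebraMap ℂ F (p.1.rep l)
  | .fac i ζ => fun l => algebraMap ℂ F ((ζ l : ℂˣ) : ℂ) * P ⟨s, i⟩ l

private theorem compP_value {F : Type} [Field F] [Algebra ℂ F] (v : Place ℂ F)
    (P : ∀ i : Idx m, Fin (Φ.N i.1) → F) (p : Pts Φ.P m) (h : ∀ i, IsValue v (P i) (p i).1)
    {s : S} (c : Comp Φ.P Φ.G m s) : IsValue v (compP P c) (c.app Φ.act p).1 := by
  cases c with
  | const q =>
    refine ⟨1, fun j => ?_⟩
    change 1 * algebraMap ℂ F (q.1.rep j) - algebraMap ℂ F (q.1.rep j) ∈ v.ring.nonunits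
    rw [one_mul, sub_self, ValuationSubring.mem_nonunits_iff, map_zero]
    exact zero_lt_one
  | fac i ζ =>
    obtain ⟨t, hs⟩ := h ⟨s, i⟩
    obtain ⟨a, ha⟩ := fn_mul_rep ζ (p ⟨s, i⟩).1
    refine ⟨algebraMap ℂ F a * t, fun j => ?_⟩
    change algebraMap ℂ F a * t * (algebraMap ℂ F ((ζ j : ℂˣ) : ℂ) * P ⟨s, i⟩ j) -
      algebraMap ℂ F ((mul ζ (p ⟨s, i⟩).1).rep j) ∈ v.ring.nonunits
    have h3 : algebraMap ℂ F a * t * (algebraMap ℂ F ((ζ j : ℂˣ) : ℂ) * P ⟨s, i⟩ j) -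
        algebraMap ℂ F ((a : ℂ) * (((ζ j : ℂˣ) : ℂ) * (p ⟨s, i⟩).1.rep j)) =
        algebraMap ℂ F (a * ((ζ j : ℂˣ) : ℂ)) *
          (t * P ⟨s, i⟩ j - algebraMap ℂ F ((p ⟨s, i⟩).1.rep j)) := by
      simp only [map_mul]
      ring
    rw [ha, h3, mul_comm, ValuationSubring.mem_nonunits_iff, map_mul]
    have h4 := hs j
    unfold Place.Vanishes at h4
    rw [ValuationSubring.mem_nonunits_iff] at h4
    exact mul_lt_one_of_lt_of_le h4 ((v.ring.valuation_le_one_iff _).2 (v.const_mem _))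

theorem ratEq_deg (R : Type) [Field R] {z : Pts Φ.P m →₀ R} (hz : z ∈ Φ.ratEq R m) :
    (z.sum fun _ c => c) = 0 := by
  have key : Φ.ratEq R m ≤
      LinearMap.ker (Finsupp.linearCombination R (fun _ : Pts Φ.P m => (1 : R))) := by
    unfold Fam.ratEq
    refine sup_le (Submodule.span_le.2 ?_) (Submodule.span_le.2 ?_)
    · rintro _ ⟨F, _, _, _, _, _, _, x, φ, _, a, b, v, w, _, _, rfl⟩
      rw [SetLike.mem_coe, LinearMap.mem_ker, map_sum]
      refine Finset.sum_eq_zero fun τ _ => ?_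
      rw [map_sub, Finsupp.linearCombination_single, Finsupp.linearCombination_single, sub_self]
    · rintro _ ⟨p, h, _, rfl⟩
      rw [SetLike.mem_coe, LinearMap.mem_ker, map_sub, Finsupp.linearCombination_single,
        Finsupp.linearCombination_single, sub_self]
  have h := key hz
  rw [LinearMap.mem_ker, Finsupp.linearCombination_apply] at h
  simpa using h

/-- `f (h p) = h' (f p)` -/
private theorem fn_comm (f : Mor Φ.P Φ.G m m') (h : ∀ i : Idx m, Φ.G i.1)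
    (hh : ∀ i, h i ∈ Φ.H i.1) (p : Pts Φ.P m) : ∃ h' : ∀ j : Idx m', Φ.G j.1,
      (∀ j, h' j ∈ Φ.H j.1) ∧ f.app Φ.act (fun i => Φ.act i.1 (h i) (p i)) =
        fun j => Φ.act j.1 (h' j) (f.app Φ.act p j) := by
  have key : ∀ j : Idx m', ∃ g : Φ.G j.1, g ∈ Φ.H j.1 ∧
      f.app Φ.act (fun i => Φ.act i.1 (h i) (p i)) j = Φ.act j.1 g (f.app Φ.act p j) := by
    intro j
    unfold Mor.app
    cases f j with
    | const q => exact ⟨1, one_mem _, (fn_act_one j.1 q).symm⟩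
    | fac i ζ =>
      refine ⟨h ⟨j.1, i⟩, hh ⟨j.1, i⟩, ?_⟩
      change Φ.act j.1 ζ (Φ.act j.1 (h ⟨j.1, i⟩) (p ⟨j.1, i⟩)) =
        Φ.act j.1 (h ⟨j.1, i⟩) (Φ.act j.1 ζ (p ⟨j.1, i⟩))
      rw [← fn_act_mul, ← fn_act_mul, mul_comm]
  choose h' h1 h2 using key
  exact ⟨h', h1, funext h2⟩

theorem ratEq_map (R : Type) [Field R] (f : Mor Φ.P Φ.G m m') :
    (Φ.ratEq R m).map (Finsupp.lmapDomain R R (f.app Φ.act)) ≤ Φ.ratEq R m' := by
  unfold Fam.ratEq
  rw [Submodule.map_sup]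
  refine sup_le ?_ ?_
  · rw [Submodule.map_span_le]
    rintro z ⟨F, _, _, _, _, _, _, x, φ, h1, a, b, v, w, hv, hw, rfl⟩
    apply Submodule.mem_sup_left
    apply Submodule.subset_span
    refine ⟨F, inferInstance, inferInstance, inferInstance, inferInstance, inferInstance,
      inferInstance, fun j => compP x (f j), fun v => f.app Φ.act (φ v),
      fun v j => compP_value v x (φ v) (h1 v) (f j), a, b, v, w, hv, hw, ?_⟩
    rw [map_sum]
    refine Finset.sum_congr rfl fun τ _ => ?_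
    rw [map_sub, Finsupp.lmapDomain_apply, Finsupp.lmapDomain_apply, Finsupp.mapDomain_single,
      Finsupp.mapDomain_single]
  · rw [Submodule.map_span_le]
    rintro z ⟨p, h, hh, rfl⟩
    apply Submodule.mem_sup_right
    apply Submodule.subset_span
    obtain ⟨h', hh', he⟩ := fn_comm f h hh p
    refine ⟨f.app Φ.act p, h', hh', ?_⟩
    rw [map_sub, Finsupp.lmapDomain_apply, Finsupp.lmapDomain_apply, Finsupp.mapDomain_single,
      Finsupp.mapDomain_single, he]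

theorem P_nonempty [∀ s, NeZero (Φ.d s)] (s : S) (h : Φ.r s < Φ.N s) : Nonempty (Φ.P s) := by
  have h1 : LinearMap.ker (Matrix.mulVecLin (Matrix.of (Φ.c s))) ≠ ⊥ := by
    apply LinearMap.ker_ne_bot_of_finrank_lt
    simpa using h
  obtain ⟨v, hv, hv0⟩ := (Submodule.ne_bot_iff _).1 h1
  obtain ⟨q, hq, -⟩ := exists_point (m := Φ.d s) hv0 (c := Φ.c s) (fun i => by
    have h2 := congrFun (LinearMap.mem_ker.1 hv) i
    simpa [Matrix.mulVec, dotProduct] using h2)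
  exact ⟨⟨q, hq⟩⟩

end Pool.Agent.BBP
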