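import Pool.Agent.BBP.Final
import Pool.Agent.BBP.Funct
import Pool.Agent.BBM.Alb
import Pool.Agent.BBM.Grad

/-!
# Conditions 1-4
-/

set_option autoImplicit false

noncomputable section

namespace Pool.Agent.BBP

open Pool.Agent.ZCyc Pool.Agent.DCI57 Pool.Agent.BBM
open scoped LinearAlgebra.Projectivization

variable {S : Type} [Fintype S] [DecidableEq S] {Φ : Fam S} {m m' k : S → ℕ}

/-- the combination of automorphisms induced on the factors `I`, `J` -/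
private def indu (γ : Mor Φ.P Φ.G m m' →₀ ℚ) (I : ∀ s, Fin (k s) ↪o Fin (m s))
    (J : ∀ s, Fin (k s) ↪o Fin (m' s)) :
    ((∀ s, Equiv.Perm (Fin (k s))) × (∀ i : Idx k, Φ.G i.1)) →₀ ℚ := by
  classical
  exact ∑ f ∈ γ.support, if h : ∃ g : (∀ s, Equiv.Perm (Fin (k s))) × (∀ i : Idx k, Φ.G i.1),
    Induces f I J g.1 g.2 then Finsupp.single h.choose (γ f) else 0

private lemma indu_sum {M : Type} [AddCommMonoid M] (γ : Mor Φ.P Φ.G m m' →₀ ℚ)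
    (I : ∀ s, Fin (k s) ↪o Fin (m s)) (J : ∀ s, Fin (k s) ↪o Fin (m' s))
    (F : (∀ s, Equiv.Perm (Fin (k s))) × (∀ i : Idx k, Φ.G i.1) → ℚ → M)
    (h0 : ∀ g, F g 0 = 0) (hadd : ∀ g a b, F g (a + b) = F g a + F g b) :
    (indu γ I J).sum F = ∑ f ∈ γ.support, (by
      classical
      exact if h : ∃ g : (∀ s, Equiv.Perm (Fin (k s))) × (∀ i : Idx k, Φ.G i.1),
        Induces f I J g.1 g.2 then F h.choose (γ f) else 0 : M) := by
  classical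
  unfold indu
  rw [← Finsupp.sum_finsetSum_index h0 hadd]
  apply Finset.sum_congr rfl
  intro f _
  by_cases h : ∃ g : (∀ s, Equiv.Perm (Fin (k s))) × (∀ i : Idx k, Φ.G i.1),
    Induces f I J g.1 g.2
  · rw [dif_pos h, dif_pos h, Finsupp.sum_single_index (h0 _)]
  · rw [dif_neg h, dif_neg h, Finsupp.sum_zero_index]

private lemma kills_indu (γ : Mor Φ.P Φ.G m m' →₀ ℚ) {ν : ℕ} (hγ : Φ.KillsNuForms γ ν)
    (hν : ν = ∑ s, Φ.n s * k s) (I : ∀ s, Fin (k s) ↪o Fin (m s))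
    (J : ∀ s, Fin (k s) ↪o Fin (m' s)) : KillsForms (indu γ I J) := by
  intro e he P hP hP'
  rw [indu_sum γ I J (fun g c => (c : ℂ) • Φ.pull g.1 g.2 P) (fun g => by simp)
    (fun g a b => by push_cast; rw [add_smul])]
  have := hγ k hν e he I J P hP hP'
  rw [Finsupp.sum] at this
  refine Eq.trans ?_ this
  apply Finset.sum_congr rfl
  intro f _
  unfold Fam.pullComp
  by_cases h : ∃ g : (∀ s, Equiv.Perm (Fin (k s))) × (∀ i : Idx k, Φ.G i.1),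
    Induces f I J g.1 g.2
  · rw [dif_pos h, dif_pos h]
  · rw [dif_neg h, dif_neg h, smul_zero]

private lemma push_indu (γ : Mor Φ.P Φ.G m m' →₀ ℚ) (I : ∀ s, Fin (k s) ↪o Fin (m s))
    (J : ∀ s, Fin (k s) ↪o Fin (m' s)) (x y : Pts Φ.P k) :
    push (indu γ I J) (cyc ℚ Finset.univ x y) =
      ∑ f ∈ γ.support, γ f • inducedMap (R := ℚ) Φ.act f I J x y := by
  unfold push
  rw [indu_sum γ I J (fun g c => c • (cyc ℚ Finset.univ x y).mapDomain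
    (symAct Φ.act g.1 g.2)) (fun g => by simp) (fun g a b => by rw [add_smul])]
  apply Finset.sum_congr rfl
  intro f _
  unfold inducedMap
  by_cases h : ∃ g : (∀ s, Equiv.Perm (Fin (k s))) × (∀ i : Idx k, Φ.G i.1),
    Induces f I J g.1 g.2
  · rw [dif_pos h, dif_pos h]
  · rw [dif_neg h, dif_neg h, smul_zero]

/-- the case `ν = 0` -/
private lemma sum_zero (γ : Mor Φ.P Φ.G m m' →₀ ℚ) (hγ : Φ.KillsNuForms γ 0) :
    (γ.sum fun _ c => c) = 0 := by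
  classical
  have I0 : ∀ m : S → ℕ, ∀ s, Fin ((0 : S → ℕ) s) ↪o Fin (m s) := fun m s =>
    ⟨⟨fun i => i.elim0, fun i => i.elim0⟩, fun {i} => i.elim0⟩
  have hempty : ∀ P : Prop, (i : Idx (0 : S → ℕ)) → P := fun P i => i.2.elim0
  have h1 := hγ 0 (by simp) 0 (fun s => Or.inl rfl) (I0 m) (I0 m') 1
    (fun s _ i => hempty _ i) ?_
  · rw [Finsupp.sum] at h1
    have h2 : ∀ f : Mor Φ.P Φ.G m m', Φ.pullComp f (I0 m) (I0 m') 1 = 1 := by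
      intro f
      unfold Fam.pullComp
      have h3 : ∃ g : (∀ s, Equiv.Perm (Fin ((0 : S → ℕ) s))) ×
          (∀ i : Idx (0 : S → ℕ), Φ.G i.1), Induces f (I0 m) (I0 m') g.1 g.2 :=
        ⟨⟨fun _ => 1, fun i => i.2.elim0⟩, fun i => hempty _ i⟩
      rw [dif_pos h3]
      unfold Fam.pull
      rw [map_one]
      have h4 : h3.choose.1 = fun _ => 1 := by
        funext s
        ext l
        exact l.elim0
      rw [h4]
      have : IsEmpty (Idx (0 : S → ℕ)) := ⟨fun i => i.2.elim0⟩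
      simp
    simp only [h2] at h1
    have h5 := congrArg MvPolynomial.constantCoeff h1
    rw [map_sum, map_zero] at h5
    have hc : ∑ f ∈ γ.support, (γ f : ℂ) = 0 := by
      simpa [MvPolynomial.smul_eq_C_mul] using h5
    rw [Finsupp.sum]
    exact_mod_cast hc
  · intro h _
    unfold Fam.pull
    rw [map_one]
    have : IsEmpty (Idx (0 : S → ℕ)) := ⟨fun i => i.2.elim0⟩
    simp

theorem conditions [∀ s, NeZero (Φ.d s)] (hG : Φ.Good) :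
    (∀ m ν, Φ.ratEq ℚ m ≤ Fil (Φ.ratEq ℚ) Φ.n m ν ∧
      Fil (Φ.ratEq ℚ) Φ.n m (ν + 1) ≤ Fil (Φ.ratEq ℚ) Φ.n m ν) ∧
    (∀ m, Fil (Φ.ratEq ℚ) Φ.n m 0 = ⊤) ∧
    (∀ m z, z ∈ Fil (Φ.ratEq ℚ) Φ.n m 1 ↔ (z.sum fun _ c => c) = 0) ∧
    (∀ m z, z ∈ Fil (Φ.ratEq ℚ) Φ.n m 2 ↔ (z.sum fun _ c => c) = 0 ∧
      ∀ m' : S → ℕ, ∑ s, Φ.n s * m' s = 1 → ∀ f : Mor Φ.P Φ.G m m',
        z.mapDomain (f.app Φ.act) ∈ Φ.ratEq ℚ m') ∧
    (∀ m, Fil (Φ.ratEq ℚ) Φ.n m (∑ s, Φ.n s * m s + 1) = Φ.ratEq ℚ m) ∧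
    (∀ m m' ν (γ : Mor Φ.P Φ.G m m' →₀ ℚ),
      (Fil (Φ.ratEq ℚ) Φ.n m ν).map (pushM Φ.act γ) ≤ Fil (Φ.ratEq ℚ) Φ.n m' ν) ∧
    (∀ m m' ν (γ : Mor Φ.P Φ.G m m' →₀ ℚ), Φ.KillsNuForms γ ν →
      (Fil (Φ.ratEq ℚ) Φ.n m ν).map (pushM Φ.act γ) ≤ Fil (Φ.ratEq ℚ) Φ.n m' (ν + 1)) := by
  have : ∀ s, Nonempty (Φ.P s) := fun s => P_nonempty s (hG.hN s)
  have hact : ∀ s (p : Φ.P s), Φ.act s 1 p = p := act_one
  have hrat : ∀ (m m' : S → ℕ) (f : Mor Φ.P Φ.G m m'),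
      (Φ.ratEq ℚ m).map (Finsupp.lmapDomain ℚ ℚ (f.app Φ.act)) ≤ Φ.ratEq ℚ m' :=
    fun m m' f => ratEq_map ℚ f
  have hdeg : ∀ (m : S → ℕ), ∀ z ∈ Φ.ratEq ℚ m, (z.sum fun _ c => c) = 0 :=
    fun m z hz => ratEq_deg ℚ hz
  refine ⟨fun m ν => ⟨rat_le_Fil Φ.n ν, Fil_anti Φ.n ν⟩, fun m => Fil_zero Φ.n,
    fun m z => Fil_one Φ.n hG.hn (hdeg m) z,
    fun m z => Fil_two (act := Φ.act) (e := fun _ => 1) hact Φ.n hG.hn hrat hdeg z,
    fun m => Fil_top Φ.n, fun m m' ν γ => map_pushM_le Φ.n ν (hrat m m') γ,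
    fun m m' ν γ hγ => Fil_grad (e := fun _ => 1) hact Φ.n hG.hn hrat hdeg γ ν ?_ ?_⟩
  · rintro rfl
    exact sum_zero γ hγ
  · intro k hk hν I J x y
    rw [← push_indu]
    exact main hG _ (kills_indu γ hγ hν I J) x y

end Pool.Agent.BBP
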