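import Pool.Agent.BBM.Defs
import Pool.Agent.DCI57.Defs

/-!
# Zero-cycles on products of quotients of diagonal complete intersections: definitions

We consider a finite family of varieties `Y s = X s / H s`, where `X s` is an intersection of
diagonal hypersurfaces in the complex projective space, and `H s` is a group of diagonal
automorphisms of `X s`. For `m : S → ℕ` let `X ^ m` and `Y ^ m` be the products of the powers
`(X s) ^ (m s)` and `(Y s) ^ (m s)`. Zero-cycles on `Y ^ m` are represented by zero-cycles on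
`X ^ m`. We define rational equivalence on `Y ^ m`, and the action of correspondences on holomorphic
forms. Points of curves (`Place`), the values of a morphism from a curve to the projective space
(`IsValue`) and the intersection of diagonal hypersurfaces (`Diag`) are defined in
`Pool.Agent.ZCyc.Defs` and `Pool.Agent.DCI57.Defs`, products, morphisms and the filtration in
`Pool.Agent.BBM.Defs`.
-/

set_option autoImplicit false

noncomputable section

namespace Pool.Agent.BBP

open Pool.Agent.ZCyc Pool.Agent.DCI57 Pool.Agent.BBM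
open scoped LinearAlgebra.Projectivization

/-- The data of a family of varieties `Y s = X s / H s`: `X s` is given by the equations
`∑ j, c s i j * x j ^ (d s) = 0`, `i < r s`, in the projective space with `N s` homogeneous
coordinates, and `H s` is a group of automorphisms `x ↦ (ζ j * x j)_j`, where the `ζ j` are
`d s`-th roots of unity. -/
structure Fam (S : Type) where
  /-- the degrees of the equations -/
  d : S → ℕ
  /-- the numbers of homogeneous coordinates -/
  N : S → ℕ
  /-- the numbers of equations -/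
  r : S → ℕ
  /-- the dimensions -/
  n : S → ℕ
  /-- the coefficients of the equations -/
  c : ∀ s, Fin (r s) → Fin (N s) → ℂ
  /-- the groups -/
  H : ∀ s, Subgroup (Fin (N s) → rootsOfUnity (d s) ℂ)

variable {S : Type} (Φ : Fam S)

/-- The group of diagonal automorphisms of `X s`. -/
abbrev Fam.G (s : S) : Type := Fin (Φ.N s) → rootsOfUnity (Φ.d s) ℂ

/-- The points of `X s`. -/
def Fam.P (s : S) : Type := {p : ℙ ℂ (Fin (Φ.N s) → ℂ) // p ∈ Diag (Φ.d s) (Φ.c s)}

theorem mul_ne {d N : ℕ} (ζ : Fin N → rootsOfUnity d ℂ) (p : ℙ ℂ (Fin N → ℂ)) :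
    (fun j => ((ζ j : ℂˣ) : ℂ) * p.rep j) ≠ 0 := by
  intro h
  apply p.rep_nonzero
  funext j
  have := congrFun h j
  simpa using this

/-- The automorphism `x ↦ (ζ j * x j)_j` of the projective space. -/
def mul {d N : ℕ} (ζ : Fin N → rootsOfUnity d ℂ) (p : ℙ ℂ (Fin N → ℂ)) : ℙ ℂ (Fin N → ℂ) :=
  Projectivization.mk ℂ (fun j => ((ζ j : ℂˣ) : ℂ) * p.rep j) (mul_ne ζ p)

theorem mul_mem {d N r : ℕ} (c : Fin r → Fin N → ℂ) (ζ : Fin N → rootsOfUnity d ℂ)
    {p : ℙ ℂ (Fin N → ℂ)} (hp : p ∈ Diag d c) : mul ζ p ∈ Diag d c := by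
  obtain ⟨a, ha⟩ := Projectivization.exists_smul_eq_mk_rep ℂ
    (fun j => ((ζ j : ℂˣ) : ℂ) * p.rep j) (mul_ne ζ p)
  intro i
  have h1 : ∀ j, (mul ζ p).rep j = (a : ℂ) * (((ζ j : ℂˣ) : ℂ) * p.rep j) := by
    intro j
    have h2 := congrFun ha j
    rw [Pi.smul_apply, Units.smul_def, smul_eq_mul] at h2
    exact h2.symm
  have h2 : ∀ j, ((ζ j : ℂˣ) : ℂ) ^ d = 1 := by
    intro j
    have h3 := (ζ j).2
    rw [mem_rootsOfUnity] at h3
    have h4 := congrArg Units.val h3
    simpa using h4
  have h3 : ∀ j, c i j * (mul ζ p).rep j ^ d = (a : ℂ) ^ d * (c i j * p.rep j ^ d) := by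
    intro j
    rw [h1, mul_pow, mul_pow, h2]
    ring
  rw [Finset.sum_congr rfl fun j _ => h3 j, ← Finset.mul_sum, hp i, mul_zero]

/-- The action of the diagonal automorphisms on the points of `X s`. -/
def Fam.act (s : S) (ζ : Φ.G s) (p : Φ.P s) : Φ.P s := ⟨mul ζ p.1, mul_mem (Φ.c s) ζ p.2⟩

/-- The zero-cycles on `X ^ m` with coefficients in `R` which are rationally equivalent to zero on
`Y ^ m`. They are generated by two kinds of cycles. 1. The cycles `φ_* (π^* a - π^* b)`, for all
finite Galois coverings `π : D → ℙ¹` of smooth projective curves, given by extensions `F` of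
`ℂ(t)`, all points `a` and `b` (`≠ ∞`) of `ℙ¹`, and all morphisms `φ` from `D` to `X ^ m`, whose
component with number `i` has the homogeneous coordinates `x i`. Here `π^* a` is the sum of the
points `τ v`, for all `τ` in the Galois group, where `v` is a point of `D` above `a`. (Every
function on a curve is dominated by a Galois covering, so this is rational equivalence on `X ^ m`
with coefficients in the field `R` of characteristic zero.) 2. The differences `[p] - [h p]`, where
`h` is in the product of the groups `H`. -/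
def Fam.ratEq (R : Type) [Field R] (m : S → ℕ) : Submodule R (Pts Φ.P m →₀ R) :=
  Submodule.span R {z | ∃ (F : Type) (_ : Field F) (_ : Algebra ℂ F) (_ : Algebra (RatFunc ℂ) F)
    (_ : IsScalarTower ℂ (RatFunc ℂ) F) (_ : FiniteDimensional (RatFunc ℂ) F)
    (_ : IsGalois (RatFunc ℂ) F) (x : ∀ i : Idx m, Fin (Φ.N i.1) → F)
    (φ : Place ℂ F → Pts Φ.P m) (_ : ∀ v i, IsValue v (x i) (φ v i).1) (a b : ℂ)
    (v w : Place ℂ F)
    (_ : v.Vanishes (algebraMap (RatFunc ℂ) F (RatFunc.X - RatFunc.C a)))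
    (_ : w.Vanishes (algebraMap (RatFunc ℂ) F (RatFunc.X - RatFunc.C b))),
    z = ∑ τ : F ≃ₐ[RatFunc ℂ] F, (Finsupp.single (φ (v.map (τ.restrictScalars ℂ))) 1 -
      Finsupp.single (φ (w.map (τ.restrictScalars ℂ))) 1)} ⊔
  Submodule.span R {z | ∃ (p : Pts Φ.P m) (h : ∀ i : Idx m, Φ.G i.1), (∀ i, h i ∈ Φ.H i.1) ∧
    z = Finsupp.single p 1 - Finsupp.single (fun i => Φ.act i.1 (h i) (p i)) 1}

/-! ### Holomorphic forms -/

/-- The homogeneous coordinates on the factors of `X ^ k`. -/
abbrev Fam.Coo (k : S → ℕ) : Type := Σ i : Idx k, Fin (Φ.N i.1)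

/-- `P` is homogeneous of degree `e s` in the coordinates of each factor `X s`. If
`e s = r s * d s - N s` for all `s`, these polynomials are the holomorphic forms of top degree on
`X ^ k` (modulo those in the ideal of the equations): `H⁰(X s, K)` is the space of the residues of
`P Ω / ∏ f i`, where the `f i` are the equations of `X s` and
`Ω = ∑ (-1)ʲ x_j dx_0 ∧ ⋯ ∧ dx_{j-1} ∧ dx_{j+1} ∧ ⋯`, and the forms of top degree on `X ^ k` are the
tensor product of these spaces. -/
def Fam.MultiHom {k : S → ℕ} (e : S → ℕ) (P : MvPolynomial (Φ.Coo k) ℂ) : Prop :=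
  ∀ u ∈ P.support, ∀ i : Idx k, ∑ j, u ⟨i, j⟩ = e i.1

/-- The pull-back of a holomorphic form of top degree by the automorphism
`x ↦ (ζ i j * x ⟨i.1, σ i.1 i.2⟩ j)` of `X ^ k`. The sign comes from the permutation of forms of
degree `n s`, and the product of the roots of unity from the pull-back of `Ω`. -/
def Fam.pull [Fintype S] {k : S → ℕ} (σ : ∀ s, Equiv.Perm (Fin (k s)))
    (ζ : ∀ i : Idx k, Φ.G i.1) (P : MvPolynomial (Φ.Coo k) ℂ) : MvPolynomial (Φ.Coo k) ℂ :=
  ((∏ s, (((Equiv.Perm.sign (σ s) : ℤˣ) : ℤ) : ℂ) ^ Φ.n s) *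
      ∏ i : Idx k, ∏ j, ((ζ i j : ℂˣ) : ℂ)) •
    MvPolynomial.aeval (fun u : Φ.Coo k => MvPolynomial.C ((ζ u.1 u.2 : ℂˣ) : ℂ) *
      MvPolynomial.X (⟨⟨u.1.1, σ u.1.1 u.1.2⟩, u.2⟩ : Φ.Coo k)) P

/-- The form is invariant under the product of the groups `H`: it is a form on `Y ^ k`. -/
def Fam.Inv [Fintype S] {k : S → ℕ} (P : MvPolynomial (Φ.Coo k) ℂ) : Prop :=
  ∀ h : ∀ i : Idx k, Φ.G i.1, (∀ i, h i ∈ Φ.H i.1) → Φ.pull (fun _ => 1) h P = P

/-- The forms of degree `ν` on `Y ^ m'` are the direct sum over all `k : S → ℕ` with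
`∑ n s * k s = ν` and all increasing sequences `J s` of `k s` factors of `(Y s) ^ (m' s)` of the
spaces of forms of top degree on `Y ^ k` (the factors `J`), i.e. of polynomials `P`, and likewise
for `Y ^ m`. This is the component with index `I` of the pull-back by `f` of the form `P` with
index `J`. -/
def Fam.pullComp [Fintype S] {m m' k : S → ℕ} (f : Mor Φ.P Φ.G m m')
    (I : ∀ s, Fin (k s) ↪o Fin (m s)) (J : ∀ s, Fin (k s) ↪o Fin (m' s))
    (P : MvPolynomial (Φ.Coo k) ℂ) : MvPolynomial (Φ.Coo k) ℂ := by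
  classical
  exact if h : ∃ g : (∀ s, Equiv.Perm (Fin (k s))) × (∀ i : Idx k, Φ.G i.1),
    Induces f I J g.1 g.2 then Φ.pull h.choose.1 h.choose.2 P else 0

/-- The correspondence `γ` from `Y ^ m` to `Y ^ m'` acts as zero on the holomorphic `ν`-forms. -/
def Fam.KillsNuForms [Fintype S] {m m' : S → ℕ} (γ : Mor Φ.P Φ.G m m' →₀ ℚ) (ν : ℕ) : Prop :=
  ∀ k : S → ℕ, ν = ∑ s, Φ.n s * k s → ∀ e : S → ℕ, (∀ s, k s = 0 ∨ e s + Φ.N s = Φ.r s * Φ.d s) →
    ∀ (I : ∀ s, Fin (k s) ↪o Fin (m s)) (J : ∀ s, Fin (k s) ↪o Fin (m' s))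
      (P : MvPolynomial (Φ.Coo k) ℂ), Φ.MultiHom e P → Φ.Inv P →
        (γ.sum fun f c => (c : ℂ) • Φ.pullComp f I J P) = 0

end Pool.Agent.BBP
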