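import Pool.Agent.BBP.Defs
import Pool.Agent.GBB.Defs2
import Pool.Agent.DCI57.Op
import Pool.Agent.VCI.Defs

/-!
# Auxiliary definitions
-/

set_option autoImplicit false

noncomputable section

namespace Pool.Agent.BBP

open Pool.Agent.ZCyc Pool.Agent.DCI57 Pool.Agent.BBM
open Pool.Agent.GBB (zeta psi chi Typ zeta_prim zeta_pow psi_zero psi_add)
open scoped LinearAlgebra.Projectivization

/-! ### Two factors -/

section Two

variable {J J' : Type} {R : Type} [Field R]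

/-- the zero-cycles on `X × X'` which are rationally equivalent to zero -/
def ratEquiv2x (R : Type) [Field R] {J J' : Type} (X : Set (ℙ ℂ (J → ℂ)))
    (X' : Set (ℙ ℂ (J' → ℂ))) : Submodule R (ℙ ℂ (J → ℂ) × ℙ ℂ (J' → ℂ) →₀ R) :=
  Submodule.span R {z | ∃ (F : Type) (_ : Field F) (_ : Algebra ℂ F) (_ : Algebra (RatFunc ℂ) F)
    (_ : IsScalarTower ℂ (RatFunc ℂ) F) (_ : FiniteDimensional (RatFunc ℂ) F)
    (_ : IsGalois (RatFunc ℂ) F) (x : J → F) (y : J' → F) (φ : Place ℂ F → ℙ ℂ (J → ℂ))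
    (ψ : Place ℂ F → ℙ ℂ (J' → ℂ))
    (_ : ∀ v, IsValue v x (φ v)) (_ : ∀ v, IsValue v y (ψ v)) (_ : ∀ v, φ v ∈ X)
    (_ : ∀ v, ψ v ∈ X') (a b : ℂ) (v w : Place ℂ F)
    (_ : v.Vanishes (algebraMap (RatFunc ℂ) F (RatFunc.X - RatFunc.C a)))
    (_ : w.Vanishes (algebraMap (RatFunc ℂ) F (RatFunc.X - RatFunc.C b))),
    z = ∑ τ : F ≃ₐ[RatFunc ℂ] F, (Finsupp.single
        (φ (v.map (τ.restrictScalars ℂ)), ψ (v.map (τ.restrictScalars ℂ))) 1 -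
      Finsupp.single (φ (w.map (τ.restrictScalars ℂ)), ψ (w.map (τ.restrictScalars ℂ))) 1)}

/-- the operator `(p, q) ↦ ∑ g h, ψ g * ψ' h • (act ζ g p, act ζ' h q)` -/
def op2x [Fintype J] [DecidableEq J] [Fintype J'] [DecidableEq J'] {d d' : ℕ} [NeZero d]
    [NeZero d'] (ζ ζ' : ℂˣ) (ψ : AddChar (J → ZMod d) R) (ψ' : AddChar (J' → ZMod d') R) :
    (ℙ ℂ (J → ℂ) × ℙ ℂ (J' → ℂ) →₀ R) →ₗ[R] (ℙ ℂ (J → ℂ) × ℙ ℂ (J' → ℂ) →₀ R) :=
  Finsupp.linearCombination R fun p => ∑ g : J → ZMod d, ∑ h : J' → ZMod d',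
    Finsupp.single (DCI57.act ζ g p.1, DCI57.act ζ' h p.2) (ψ g * ψ' h)

end Two

theorem ratEquiv2x_self (R : Type) [Field R] {J : Type} (X : Set (ℙ ℂ (J → ℂ))) :
    ratEquiv2x R X X = VCI.ratEquiv2 R X := rfl

theorem op2x_self {J : Type} [Fintype J] [DecidableEq J] {R : Type} [Field R] {d : ℕ} [NeZero d]
    (ζ : ℂˣ) (ψ ψ' : AddChar (J → ZMod d) R) : op2x ζ ζ ψ ψ' = VCI.op2 ζ ψ ψ' := rfl

/-! ### Roots of unity -/

/-- the root of unity `zeta d ^ k` -/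
def rt {d : ℕ} [NeZero d] (k : ZMod d) : rootsOfUnity d ℂ :=
  ⟨zeta d ^ k.val, by rw [mem_rootsOfUnity, ← pow_mul, mul_comm, pow_mul, zeta_pow, one_pow]⟩

/-- a diagonal automorphism -/
def rtv {d N : ℕ} [NeZero d] (g : Fin N → ZMod d) : Fin N → rootsOfUnity d ℂ := fun j => rt (g j)

/-! ### Classes -/

variable {S : Type} (Φ : Fam S)

/-- zero-cycles modulo rational equivalence (with complex coefficients) -/
abbrev Fam.V (m : S → ℕ) : Type := (Pts Φ.P m →₀ ℂ) ⧸ Φ.ratEq ℂ m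

variable {Φ} {m k : S → ℕ}

/-- the class of a point -/
def cl (p : Pts Φ.P m) : Φ.V m := Submodule.Quotient.mk (Finsupp.single p 1)

/-- the permutation of the factors -/
def permP (τ : ∀ s, Equiv.Perm (Fin (m s))) (p : Pts Φ.P m) : Pts Φ.P m :=
  fun i => p ⟨i.1, τ i.1 i.2⟩

/-- the combination of automorphisms acts as zero on the holomorphic forms of top degree -/
def KillsForms [Fintype S]
    (γ : ((∀ s, Equiv.Perm (Fin (k s))) × (∀ i : Idx k, Φ.G i.1)) →₀ ℚ) : Prop :=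
  ∀ e : S → ℕ, (∀ s, k s = 0 ∨ e s + Φ.N s = Φ.r s * Φ.d s) →
    ∀ P : MvPolynomial (Φ.Coo k) ℂ, Φ.MultiHom e P → Φ.Inv P →
      (γ.sum fun g c => (c : ℂ) • Φ.pull g.1 g.2 P) = 0

/-- the image of a zero-cycle under a combination of automorphisms -/
def push (γ : ((∀ s, Equiv.Perm (Fin (k s))) × (∀ i : Idx k, Φ.G i.1)) →₀ ℚ)
    (z : Pts Φ.P k →₀ ℚ) : Pts Φ.P k →₀ ℚ :=
  γ.sum fun g c => c • z.mapDomain (symAct Φ.act g.1 g.2)

variable [∀ s, NeZero (Φ.d s)]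

/-- multiply the coordinates by powers of the roots of unity `zeta (d s)` -/
def actP (g : ∀ i : Idx m, Fin (Φ.N i.1) → ZMod (Φ.d i.1)) (p : Pts Φ.P m) : Pts Φ.P m :=
  fun i => Φ.act i.1 (rtv (g i)) (p i)

/-- the part of the class of `p` on which the roots of unity act by a character -/
def E [Fintype S] [DecidableEq S] (a : ∀ i : Idx m, Fin (Φ.N i.1) → ZMod (Φ.d i.1))
    (p : Pts Φ.P m) : Φ.V m :=
  ∑ g : (∀ i : Idx m, Fin (Φ.N i.1) → ZMod (Φ.d i.1)),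
    (∏ i, psi (∑ j, a i j * g i j)) • cl (actP g p)

/-- the characters which are trivial on `H s` -/
def Fam.Chars (Φ : Fam S) [∀ s, NeZero (Φ.d s)] (s : S) : Set (Fin (Φ.N s) → ZMod (Φ.d s)) :=
  {a | ∀ h : Fin (Φ.N s) → ZMod (Φ.d s), rtv h ∈ Φ.H s → ∑ j, a j * h j = 0}

/-- the properties of the family which are used: the part of a family of characters vanishes, or
they belong to forms which are conjugate by one Galois automorphism; two factors with the same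
character may be exchanged -/
structure Fam.Good [Fintype S] [DecidableEq S] (Φ : Fam S) [∀ s, NeZero (Φ.d s)] : Prop where
  hn : ∀ s, 1 ≤ Φ.n s
  hN : ∀ s, Φ.r s < Φ.N s
  chars : ∀ (m : S → ℕ) (a : ∀ i : Idx m, Fin (Φ.N i.1) → ZMod (Φ.d i.1)),
    (∀ i, a i ∈ Φ.Chars i.1) → (∀ i, a i ≠ 0) → (∀ i, ∑ j, a i j = 0) →
      (∀ p : Pts Φ.P m, E a p = 0) ∨
      ∃ (t : ∀ i : Idx m, (ZMod (Φ.d i.1))ˣ) (b : ∀ i : Idx m, Fin (Φ.N i.1) → ℕ),
        (∀ i, Typ (Φ.r i.1) (a i) (t i) (b i)) ∧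
        ∀ i i', (t i : ZMod (Φ.d i.1)).val ≡ (t i' : ZMod (Φ.d i'.1)).val
          [MOD Nat.gcd (Φ.d i.1) (Φ.d i'.1)]
  swap : ∀ s, ∀ a ∈ Φ.Chars s, ∀ (t : (ZMod (Φ.d s))ˣ) (b : Fin (Φ.N s) → ℕ),
    Typ (Φ.r s) a t b → ∀ p ∈ Diag (Φ.d s) (Φ.c s), ∀ q ∈ Diag (Φ.d s) (Φ.c s),
      op2x (zeta (Φ.d s)) (zeta (Φ.d s)) (chi a) (chi a) (Finsupp.single (p, q) 1) -
        (-1 : ℂ) ^ Φ.n s •
          op2x (zeta (Φ.d s)) (zeta (Φ.d s)) (chi a) (chi a) (Finsupp.single (q, p) 1) ∈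
      ratEquiv2x ℂ (Diag (Φ.d s) (Φ.c s)) (Diag (Φ.d s) (Φ.c s))

end Pool.Agent.BBP
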