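import Pool.Agent.BBP.Defs2
import Pool.Agent.GBB.Basic

/-!
# BBP: characters
-/

set_option autoImplicit false

noncomputable section

namespace Pool.Agent.BBP

open Pool.Agent.ZCyc Pool.Agent.DCI57 Pool.Agent.BBM
open Pool.Agent.GBB (zeta psi chi Typ zeta_prim zeta_pow psi_zero psi_add)
open scoped LinearAlgebra.Projectivization

variable {S : Type} [Fintype S] [DecidableEq S] {Φ : Fam S} {m m' k : S → ℕ}

section
variable {d N : ℕ} [NeZero d]

theorem rt_val (a : ZMod d) : (((rt a : rootsOfUnity d ℂ) : ℂˣ) : ℂ) = psi a := by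
  unfold rt psi
  push_cast
  rfl

omit [NeZero d] in
private theorem bas_rt_ext {z w : rootsOfUnity d ℂ} (h : ((z : ℂˣ) : ℂ) = ((w : ℂˣ) : ℂ)) :
    z = w := Subtype.ext (Units.ext h)

theorem exists_rt (z : rootsOfUnity d ℂ) : ∃ a : ZMod d, z = rt a := by
  have h2 := (mem_rootsOfUnity d (z : ℂˣ)).1 z.2
  have h3 := congrArg (fun u : ℂˣ => (u : ℂ)) h2
  obtain ⟨a, ha⟩ := GBB.exists_psi (d := d) (z := ((z : ℂˣ) : ℂ)) (by simpa using h3)
  refine ⟨a, bas_rt_ext ?_⟩
  rw [rt_val, ha]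

theorem exists_rtv (z : Fin N → rootsOfUnity d ℂ) : ∃ g : Fin N → ZMod d, z = rtv g := by
  choose g hg using fun j => exists_rt (z j)
  exact ⟨g, funext hg⟩

theorem rtv_add (g h : Fin N → ZMod d) : rtv (g + h) = rtv g * rtv h := by
  funext j
  apply bas_rt_ext
  change (((rt (g j + h j) : rootsOfUnity d ℂ) : ℂˣ) : ℂ) = _
  rw [rt_val, psi_add, ← rt_val, ← rt_val]
  rfl

theorem rtv_zero : rtv (0 : Fin N → ZMod d) = 1 := by
  funext j
  apply bas_rt_ext
  change (((rt (0 : ZMod d) : rootsOfUnity d ℂ) : ℂˣ) : ℂ) = _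
  rw [rt_val, psi_zero]
  rfl

theorem mul_rtv (g : Fin N → ZMod d) (p : ℙ ℂ (Fin N → ℂ)) :
    mul (rtv g) p = DCI57.act (zeta d) g p := by
  unfold mul DCI57.act
  congr 1

end

private theorem bas_mul_one {d N : ℕ} (p : ℙ ℂ (Fin N → ℂ)) :
    mul (1 : Fin N → rootsOfUnity d ℂ) p = p := by
  unfold mul
  conv_rhs => rw [← Projectivization.mk_rep p]
  congr 1
  funext j
  simp

private theorem bas_mul_mul {d N : ℕ} (g h : Fin N → rootsOfUnity d ℂ) (p : ℙ ℂ (Fin N → ℂ)) :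
    mul (g * h) p = mul g (mul h p) := by
  obtain ⟨a, ha⟩ := Projectivization.exists_smul_eq_mk_rep ℂ
    (fun j => ((h j : ℂˣ) : ℂ) * p.rep j) (mul_ne h p)
  have h1 : ∀ j, (mul h p).rep j = (a : ℂ) * (((h j : ℂˣ) : ℂ) * p.rep j) := by
    intro j
    have h2 := congrFun ha j
    rw [Pi.smul_apply, Units.smul_def, smul_eq_mul] at h2
    exact h2.symm
  conv_rhs => rw [mul]
  conv_lhs => rw [mul]
  rw [Projectivization.mk_eq_mk_iff]
  refine ⟨a⁻¹, ?_⟩
  funext j
  rw [Pi.smul_apply, Units.smul_def, smul_eq_mul, h1]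
  simp only [Pi.mul_apply, Subgroup.coe_mul, Units.val_mul]
  have ha0 : (a : ℂ) ≠ 0 := a.ne_zero
  rw [Units.val_inv_eq_inv_val]
  field_simp

omit [Fintype S] [DecidableEq S] in
theorem act_one (s : S) (p : Φ.P s) : Φ.act s 1 p = p := Subtype.ext (bas_mul_one p.1)

omit [Fintype S] [DecidableEq S] in
theorem act_mul (s : S) (g h : Φ.G s) (p : Φ.P s) :
    Φ.act s (g * h) p = Φ.act s g (Φ.act s h p) := Subtype.ext (bas_mul_mul g h p.1)

section
variable [∀ s, NeZero (Φ.d s)]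

omit [Fintype S] [DecidableEq S] in
theorem act_rtv_val (s : S) (g : Fin (Φ.N s) → ZMod (Φ.d s)) (p : Φ.P s) :
    (Φ.act s (rtv g) p).1 = DCI57.act (zeta (Φ.d s)) g p.1 := mul_rtv g p.1

omit [Fintype S] [DecidableEq S] in
theorem actP_add (g h : ∀ i : Idx m, Fin (Φ.N i.1) → ZMod (Φ.d i.1)) (p : Pts Φ.P m) :
    actP (g + h) p = actP g (actP h p) := by
  funext i
  unfold actP
  rw [← act_mul, ← rtv_add]
  rfl

omit [Fintype S] [DecidableEq S] in
theorem actP_zero (p : Pts Φ.P m) :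
    actP (0 : ∀ i : Idx m, Fin (Φ.N i.1) → ZMod (Φ.d i.1)) p = p := by
  funext i
  unfold actP
  rw [Pi.zero_apply, rtv_zero, act_one]

theorem E_act (a h : ∀ i : Idx m, Fin (Φ.N i.1) → ZMod (Φ.d i.1)) (p : Pts Φ.P m) :
    E a (actP h p) = (∏ i, psi (-∑ j, a i j * h i j)) • E a p := by
  unfold E
  rw [Finset.smul_sum]
  refine Fintype.sum_equiv (Equiv.addRight h) _ _ fun g => ?_
  rw [← actP_add, smul_smul]
  congr 1
  rw [← Finset.prod_mul_distrib]
  refine Finset.prod_congr rfl fun i _ => ?_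
  rw [← psi_add]
  congr 1
  simp only [Equiv.coe_addRight, Pi.add_apply, mul_add, Finset.sum_add_distrib]
  ring

private theorem bas_sum_one {d N : ℕ} [NeZero d] (k : Fin N → ZMod d) :
    ∑ b : Fin N → ZMod d, psi (∑ j, b j * k j) = if k = 0 then (d : ℂ) ^ N else 0 := by
  by_cases hk : k = 0
  · rw [if_pos hk, hk]
    simp only [Pi.zero_apply, mul_zero, Finset.sum_const_zero, psi_zero,
      Finset.sum_const, Finset.card_univ, Fintype.card_pi, ZMod.card, Finset.prod_const,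
      Fintype.card_fin, nsmul_eq_mul, mul_one]
    push_cast
    rfl
  · rw [if_neg hk]
    obtain ⟨j₀, h⟩ : ∃ j, k j ≠ 0 := by
      by_contra hcon
      push Not at hcon
      exact hk (funext fun j => hcon j)
    have h1 : ∑ a : Fin N → ZMod d, psi (∑ j, a j * k j) =
        psi (-k j₀) * ∑ a : Fin N → ZMod d, psi (∑ j, a j * k j) := by
      rw [Finset.mul_sum]
      refine Fintype.sum_equiv (Equiv.addRight (Pi.single j₀ 1)) _ _ fun a => ?_
      rw [← psi_add]
      congr 1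
      simp only [Equiv.coe_addRight, Pi.add_apply, add_mul, Finset.sum_add_distrib]
      rw [Finset.sum_eq_single (s := Finset.univ)
        (f := fun j => (Pi.single j₀ 1 : Fin N → ZMod d) j * k j) j₀]
      · simp
      · intro j _ hj
        rw [Pi.single_eq_of_ne hj, zero_mul]
      · intro h
        exact absurd (Finset.mem_univ _) h
    have h2 : (1 - psi (-k j₀)) * ∑ a : Fin N → ZMod d, psi (∑ j, a j * k j) = 0 := by
      linear_combination h1
    rcases mul_eq_zero.1 h2 with h3 | h3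
    · exfalso
      apply h
      have h4 := GBB.psi_eq_one (sub_eq_zero.1 h3).symm
      exact neg_eq_zero.1 h4
    · exact h3

omit [∀ s, NeZero (Φ.d s)] in
private theorem bas_sum_prod [∀ s, NeZero (Φ.d s)]
    (g : ∀ i : Idx m, Fin (Φ.N i.1) → ZMod (Φ.d i.1)) :
    ∑ a : (∀ i : Idx m, Fin (Φ.N i.1) → ZMod (Φ.d i.1)), ∏ i, psi (∑ j, a i j * g i j) =
      if g = 0 then ∏ i : Idx m, (Φ.d i.1 : ℂ) ^ Φ.N i.1 else 0 := by
  have h1 := Finset.prod_univ_sum (fun i : Idx m =>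
    (Finset.univ : Finset (Fin (Φ.N i.1) → ZMod (Φ.d i.1))))
    (fun i b => psi (∑ j, b j * g i j))
  rw [Fintype.piFinset_univ] at h1
  rw [← h1, Finset.prod_congr rfl fun i _ => bas_sum_one (g i)]
  by_cases hg : g = 0
  · rw [if_pos hg, hg]
    refine Finset.prod_congr rfl fun i _ => ?_
    rw [if_pos (by rfl)]
  · rw [if_neg hg]
    obtain ⟨i, hi⟩ : ∃ i, g i ≠ 0 := by
      by_contra hcon
      push Not at hcon
      exact hg (funext hcon)
    exact Finset.prod_eq_zero (Finset.mem_univ i) (by rw [if_neg hi])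

theorem sum_E (p : Pts Φ.P m) :
    ∑ a : (∀ i : Idx m, Fin (Φ.N i.1) → ZMod (Φ.d i.1)), E a p =
      (∏ i : Idx m, (Φ.d i.1 : ℂ) ^ Φ.N i.1) • cl p := by
  unfold E
  rw [Finset.sum_comm]
  simp only [← Finset.sum_smul, bas_sum_prod]
  rw [Finset.sum_eq_single 0]
  · rw [if_pos rfl, actP_zero]
  · intro k _ hk
    rw [if_neg hk, zero_smul]
  · intro h
    exact absurd (Finset.mem_univ _) h

/-- a family of exponents which acts trivially -/
private theorem bas_zero (a h : ∀ i : Idx m, Fin (Φ.N i.1) → ZMod (Φ.d i.1)) (p : Pts Φ.P m)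
    (i₀ : Idx m) (h0 : ∀ i, i ≠ i₀ → h i = 0) (hE : E a (actP h p) = E a p)
    (hne : ∑ j, a i₀ j * h i₀ j ≠ 0) : E a p = 0 := by
  have h1 := E_act a h p
  have h2 : ∏ i, psi (-∑ j, a i j * h i j) = psi (-∑ j, a i₀ j * h i₀ j) := by
    rw [Finset.prod_eq_single i₀]
    · intro i _ hi
      rw [h0 i hi]
      simp [psi_zero]
    · intro h
      exact absurd (Finset.mem_univ _) h
  rw [h2, hE] at h1
  have h4 : (1 - psi (-∑ j, a i₀ j * h i₀ j)) • E a p = 0 := by
    rw [sub_smul, one_smul, ← h1, sub_self]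
  rcases smul_eq_zero.1 h4 with h5 | h5
  · exact absurd (neg_eq_zero.1 (GBB.psi_eq_one (sub_eq_zero.1 h5).symm)) hne
  · exact h5

theorem E_zero_of_sum (a : ∀ i : Idx m, Fin (Φ.N i.1) → ZMod (Φ.d i.1)) (p : Pts Φ.P m)
    (i₀ : Idx m) (h : ∑ j, a i₀ j ≠ 0) : E a p = 0 := by
  refine bas_zero a (fun i _ => if i = i₀ then 1 else 0) p i₀ ?_ ?_ ?_
  · intro i hi
    funext j
    simp [hi]
  · congr 1
    funext i
    apply Subtype.ext
    unfold actP
    rw [act_rtv_val]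
    exact act_const (zeta (Φ.d i.1)) _ (p i).1
  · simpa using h

omit [Fintype S] [DecidableEq S] in
/-- the classes of `p` and `h p` are equal for `h` in the product of the groups `H` -/
private theorem bas_cl (h : ∀ i : Idx m, Fin (Φ.N i.1) → ZMod (Φ.d i.1))
    (hh : ∀ i, rtv (h i) ∈ Φ.H i.1) (p : Pts Φ.P m) : cl (actP h p) = cl p := by
  symm
  unfold cl
  rw [Submodule.Quotient.eq]
  refine Submodule.mem_sup_right (Submodule.subset_span ⟨p, fun i => rtv (h i), hh, ?_⟩)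
  rfl

/-- by the second kind of generators of `Fam.ratEq` -/
theorem E_zero_of_not_char (a : ∀ i : Idx m, Fin (Φ.N i.1) → ZMod (Φ.d i.1)) (p : Pts Φ.P m)
    (i₀ : Idx m) (h : a i₀ ∉ Φ.Chars i₀.1) : E a p = 0 := by
  have h' : ∃ h₀ : Fin (Φ.N i₀.1) → ZMod (Φ.d i₀.1), rtv h₀ ∈ Φ.H i₀.1 ∧
      ∑ j, a i₀ j * h₀ j ≠ 0 := by
    by_contra hcon
    push Not at hcon
    exact h hcon
  obtain ⟨h₀, hH, hne⟩ := h'
  set g : ∀ i : Idx m, Fin (Φ.N i.1) → ZMod (Φ.d i.1) := Function.update 0 i₀ h₀ with hg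
  have hgi : g i₀ = h₀ := by
    rw [hg]
    exact Function.update_self (β := fun i : Idx m => Fin (Φ.N i.1) → ZMod (Φ.d i.1)) i₀ h₀ 0
  have hgn : ∀ i, i ≠ i₀ → g i = 0 := by
    intro i hi
    rw [hg]
    exact Function.update_of_ne (β := fun i : Idx m => Fin (Φ.N i.1) → ZMod (Φ.d i.1)) hi h₀ 0
  have hmem : ∀ i, rtv (g i) ∈ Φ.H i.1 := by
    intro i
    by_cases hi : i = i₀
    · subst hi
      rw [hgi]
      exact hH
    · rw [hgn i hi, rtv_zero]
      exact one_mem _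
  refine bas_zero a g p i₀ hgn ?_ (by rw [hgi]; exact hne)
  unfold E
  refine Finset.sum_congr rfl fun f _ => ?_
  rw [← actP_add, add_comm, actP_add, bas_cl g hmem]

end

end Pool.Agent.BBP
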