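import Pool.Agent.BBP.Defs2

/-!
# The coefficients of a combination of automorphisms which kills all forms
-/

set_option autoImplicit false

noncomputable section

namespace Pool.Agent.BBP

open Pool.Agent.ZCyc Pool.Agent.DCI57 Pool.Agent.BBM
open Pool.Agent.GBB (zeta psi chi Typ zeta_prim zeta_pow psi_zero psi_add)
open scoped LinearAlgebra.Projectivization

/-! ### Roots of unity -/

section
variable {d N : ℕ} [NeZero d]

private theorem cf_rt_val (a : ZMod d) : (((rt a : rootsOfUnity d ℂ) : ℂˣ) : ℂ) = psi a := by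
  unfold rt psi
  push_cast
  rfl

private theorem cf_exists_rt (z : rootsOfUnity d ℂ) : ∃ a : ZMod d, z = rt a := by
  have h1 : (((z : ℂˣ) : ℂ)) ^ d = 1 := by
    have h3 := z.2
    rw [mem_rootsOfUnity] at h3
    have h4 := congrArg Units.val h3
    simpa using h4
  obtain ⟨i, hi, hiz⟩ := (zeta_prim d).eq_pow_of_pow_eq_one h1
  refine ⟨(i : ZMod d), ?_⟩
  apply Subtype.ext
  apply Units.ext
  rw [cf_rt_val, psi, ZMod.val_natCast_of_lt hi, hiz]

private theorem cf_exists_rtv (z : Fin N → rootsOfUnity d ℂ) :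
    ∃ g : Fin N → ZMod d, z = rtv g := by
  choose g hg using fun j => cf_exists_rt (z j)
  exact ⟨g, funext hg⟩

private theorem cf_psi_finsum {I : Type} (s : Finset I) (f : I → ZMod d) :
    psi (∑ i ∈ s, f i) = ∏ i ∈ s, psi (f i) := by
  classical
  induction s using Finset.induction_on with
  | empty => rw [Finset.sum_empty, Finset.prod_empty, psi_zero]
  | insert a s ha ih => rw [Finset.sum_insert ha, Finset.prod_insert ha, ← ih, psi_add]

private theorem cf_psi_pow (n : ℕ) (k : ZMod d) :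
    psi ((n : ZMod d) * k) = psi k ^ n := by
  induction n with
  | zero => rw [Nat.cast_zero, zero_mul, psi_zero, pow_zero]
  | succ n ih => rw [Nat.cast_succ, add_mul, one_mul, psi_add, ih, pow_succ]

private theorem cf_psi_sum (b : Fin N → ℕ) (z : Fin N → ZMod d) :
    ∏ j, (((rtv z j : rootsOfUnity d ℂ) : ℂˣ) : ℂ) ^ b j = psi (∑ j, (b j : ZMod d) * z j) := by
  rw [cf_psi_finsum]
  refine Finset.prod_congr rfl fun j _ => ?_
  rw [cf_psi_pow, ← cf_rt_val]
  rfl

end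

variable {S : Type} [Fintype S] [DecidableEq S] {Φ : Fam S} {m m' k : S → ℕ}

/-- the permutation of the coordinates -/
private def cperm (σ : ∀ s, Equiv.Perm (Fin (k s))) : Equiv.Perm (Φ.Coo k) where
  toFun u := ⟨⟨u.1.1, σ u.1.1 u.1.2⟩, u.2⟩
  invFun u := ⟨⟨u.1.1, (σ u.1.1).symm u.1.2⟩, u.2⟩
  left_inv := by
    rintro ⟨⟨s, i⟩, j⟩
    exact congrArg (fun x => (⟨⟨s, x⟩, j⟩ : Φ.Coo k)) ((σ s).symm_apply_apply i)
  right_inv := by
    rintro ⟨⟨s, i⟩, j⟩
    exact congrArg (fun x => (⟨⟨s, x⟩, j⟩ : Φ.Coo k)) ((σ s).apply_symm_apply i)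

omit [DecidableEq S] in
private theorem cf_pull_monomial (σ : ∀ s, Equiv.Perm (Fin (k s)))
    (ζ : ∀ i : Idx k, Φ.G i.1) (t : Φ.Coo k →₀ ℕ) :
    Φ.pull σ ζ (MvPolynomial.monomial t 1) = MvPolynomial.monomial (t.equivMapDomain (cperm σ))
      ((∏ s, (((Equiv.Perm.sign (σ s) : ℤˣ) : ℤ) : ℂ) ^ Φ.n s) *
        ∏ i : Idx k, ∏ j, ((ζ i j : ℂˣ) : ℂ) ^ (t ⟨i, j⟩ + 1)) := by
  have h1 : MvPolynomial.aeval
      (fun u : Φ.Coo k => MvPolynomial.C ((ζ u.1 u.2 : ℂˣ) : ℂ) *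
        MvPolynomial.X (⟨⟨u.1.1, σ u.1.1 u.1.2⟩, u.2⟩ : Φ.Coo k))
      (MvPolynomial.monomial t (1 : ℂ)) =
      MvPolynomial.C (∏ u : Φ.Coo k, ((ζ u.1 u.2 : ℂˣ) : ℂ) ^ t u) *
        (MvPolynomial.monomial (t.equivMapDomain (cperm σ)) (1 : ℂ)) := by
    have e2 : ∏ u : Φ.Coo k,
        (MvPolynomial.X (⟨⟨u.1.1, σ u.1.1 u.1.2⟩, u.2⟩ : Φ.Coo k) :
          MvPolynomial (Φ.Coo k) ℂ) ^ t u =
        ∏ u, MvPolynomial.X u ^ (t.equivMapDomain (cperm σ)) u := by
      rw [← Equiv.prod_comp (cperm σ)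
        (fun u => MvPolynomial.X u ^ (t.equivMapDomain (cperm σ)) u)]
      refine Finset.prod_congr rfl fun u _ => ?_
      rw [Finsupp.equivMapDomain_apply, Equiv.symm_apply_apply]
      rfl
    rw [MvPolynomial.aeval_monomial, map_one, one_mul,
      Finsupp.prod_fintype _ _ (fun _ => pow_zero _),
      MvPolynomial.monomial_eq, map_one, one_mul, Finsupp.prod_fintype _ _ (fun _ => pow_zero _),
      map_prod, ← e2, ← Finset.prod_mul_distrib]
    refine Finset.prod_congr rfl fun u _ => ?_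
    rw [mul_pow, map_pow]
  unfold Fam.pull
  rw [h1, MvPolynomial.smul_eq_C_mul, ← mul_assoc, ← map_mul, MvPolynomial.C_mul_monomial, mul_one]
  congr 1
  rw [mul_assoc]
  congr 1
  have e3 : ∏ u : Φ.Coo k, ((ζ u.1 u.2 : ℂˣ) : ℂ) ^ t u =
      ∏ i : Idx k, ∏ j, ((ζ i j : ℂˣ) : ℂ) ^ t ⟨i, j⟩ := Fintype.prod_sigma _
  rw [e3, ← Finset.prod_mul_distrib]
  refine Finset.prod_congr rfl fun i _ => ?_
  rw [← Finset.prod_mul_distrib]
  refine Finset.prod_congr rfl fun j _ => ?_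
  rw [pow_succ']

variable [∀ s, NeZero (Φ.d s)]

/-- the coefficients of a combination which kills all forms -/
theorem coeff_forms (γ : ((∀ s, Equiv.Perm (Fin (k s))) × (∀ i : Idx k, Φ.G i.1)) →₀ ℚ)
    (hγ : KillsForms γ)
    (z : ((∀ s, Equiv.Perm (Fin (k s))) × (∀ i : Idx k, Φ.G i.1)) →
      ∀ i : Idx k, Fin (Φ.N i.1) → ZMod (Φ.d i.1)) (hz : ∀ g i, g.2 i = rtv (z g i))
    (b c : ∀ i : Idx k, Fin (Φ.N i.1) → ℕ) (hb : ∀ i j, 0 < b i j)
    (hs : ∀ i : Idx k, ∑ j, b i j = Φ.r i.1 * Φ.d i.1)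
    (hH : ∀ i : Idx k, (fun j => (b i j : ZMod (Φ.d i.1))) ∈ Φ.Chars i.1) :
    ∑ g ∈ γ.support with (∀ (i : Idx k) (j : Fin (Φ.N i.1)),
        b ⟨i.1, (g.1 i.1).symm i.2⟩ j = c i j),
      (((γ g * ∏ s, (((Equiv.Perm.sign (g.1 s) : ℤˣ) : ℤ) : ℚ) ^ Φ.n s : ℚ)) : ℂ) *
        ∏ i, psi (∑ j, (b i j : ZMod (Φ.d i.1)) * z g i j) = 0 := by
  by_cases hc : ∀ i j, 0 < c i j
  · set t : Φ.Coo k →₀ ℕ := Finsupp.equivFunOnFinite.symm fun u => b u.1 u.2 - 1 with htd
    set t' : Φ.Coo k →₀ ℕ := Finsupp.equivFunOnFinite.symm fun u => c u.1 u.2 - 1 with htd'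
    have htu : ∀ u, t u = b u.1 u.2 - 1 := fun u => rfl
    have htu' : ∀ u, t' u = c u.1 u.2 - 1 := fun u => rfl
    have hsum : ∀ i : Idx k, ∑ j, t ⟨i, j⟩ + Φ.N i.1 = Φ.r i.1 * Φ.d i.1 := by
      intro i
      rw [← hs i]
      have h1 : ∑ j : Fin (Φ.N i.1), (t ⟨i, j⟩ + 1) = ∑ j, b i j :=
        Finset.sum_congr rfl fun j _ => by
          rw [htu]
          have := hb i j
          simp only
          omega
      rw [← h1, Finset.sum_add_distrib]
      simp
    have he : ∀ s, k s = 0 ∨ (Φ.r s * Φ.d s - Φ.N s) + Φ.N s = Φ.r s * Φ.d s := by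
      intro s
      rcases Nat.eq_zero_or_pos (k s) with h0 | h0
      · exact Or.inl h0
      · right
        have := hsum ⟨s, ⟨0, h0⟩⟩
        simp only at this
        omega
    have hP : Φ.MultiHom (fun s => Φ.r s * Φ.d s - Φ.N s)
        (MvPolynomial.monomial t (1 : ℂ)) := by
      intro u hu i
      have h1 : u = t := by
        have := MvPolynomial.support_monomial_subset hu
        exact Finset.mem_singleton.1 this
      rw [h1]
      have := hsum i
      show _ = Φ.r i.1 * Φ.d i.1 - Φ.N i.1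
      omega
    have hcoef : ∀ (w : ∀ i : Idx k, Φ.G i.1) (y : ∀ i : Idx k, Fin (Φ.N i.1) → ZMod (Φ.d i.1)),
        (∀ i, w i = rtv (y i)) → ∏ i : Idx k, ∏ j, ((w i j : ℂˣ) : ℂ) ^ (t ⟨i, j⟩ + 1) =
          ∏ i : Idx k, psi (∑ j, (b i j : ZMod (Φ.d i.1)) * y i j) := by
      intro w y hw
      refine Finset.prod_congr rfl fun i _ => ?_
      rw [← cf_psi_sum (b i) (y i)]
      refine Finset.prod_congr rfl fun j _ => ?_
      rw [htu, Nat.sub_add_cancel (hb _ _), hw i]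
    have hInv : Φ.Inv (MvPolynomial.monomial t (1 : ℂ)) := by
      intro h hh
      choose y hy using fun i => cf_exists_rtv (h i)
      rw [cf_pull_monomial, hcoef h y hy]
      have h1 : ∀ i : Idx k, psi (∑ j, (b i j : ZMod (Φ.d i.1)) * y i j) = 1 := by
        intro i
        rw [hH i (y i) (by rw [← hy i]; exact hh i), psi_zero]
      have h2 : t.equivMapDomain (cperm fun _ => 1) = t := by
        ext u
        rw [Finsupp.equivMapDomain_apply]
        rfl
      rw [h2, Finset.prod_congr rfl fun i _ => h1 i]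
      simp
    have h0 := congrArg (MvPolynomial.coeff t') (hγ _ he _ hP hInv)
    rw [Finsupp.sum, MvPolynomial.coeff_sum, MvPolynomial.coeff_zero] at h0
    rw [Finset.sum_filter]
    refine (Finset.sum_congr rfl fun g _ => ?_).trans h0
    rw [MvPolynomial.coeff_smul, cf_pull_monomial, MvPolynomial.coeff_monomial]
    have hap : ∀ (i : Idx k) (j : Fin (Φ.N i.1)), t.equivMapDomain (cperm g.1) ⟨i, j⟩ =
        b ⟨i.1, (g.1 i.1).symm i.2⟩ j - 1 := by
      intro i j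
      rw [Finsupp.equivMapDomain_apply, htu]
      rfl
    have hiff : (t.equivMapDomain (cperm g.1) = t') ↔
        ∀ (i : Idx k) (j : Fin (Φ.N i.1)), b ⟨i.1, (g.1 i.1).symm i.2⟩ j = c i j := by
      constructor
      · intro h i j
        have h2 := DFunLike.congr_fun h ⟨i, j⟩
        rw [hap, htu'] at h2
        have h3 := hb ⟨i.1, (g.1 i.1).symm i.2⟩ j
        have h4 := hc i j
        simp only at h2
        omega
      · intro h
        ext ⟨i, j⟩
        rw [hap, htu', h i j]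
    by_cases hg : ∀ (i : Idx k) (j : Fin (Φ.N i.1)), b ⟨i.1, (g.1 i.1).symm i.2⟩ j = c i j
    · rw [if_pos hg, if_pos (hiff.2 hg), hcoef g.2 (z g) (hz g), smul_eq_mul]
      push_cast
      ring
    · rw [if_neg hg, if_neg (fun h => hg (hiff.1 h)), smul_zero]
  · push Not at hc
    obtain ⟨i, j, hij⟩ := hc
    apply Finset.sum_eq_zero
    intro g hg
    have h1 := (Finset.mem_filter.1 hg).2 i j
    have h2 := hb ⟨i.1, (g.1 i.1).symm i.2⟩ j
    omega

end Pool.Agent.BBP
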