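import Pool.Agent.BBP.Defs2
import Pool.Agent.WBP.Crt

/-!
# Galois conjugation for several roots of unity
-/

set_option autoImplicit false

noncomputable section

namespace Pool.Agent.BBP

open Pool.Agent.ZCyc Pool.Agent.DCI57 Pool.Agent.BBM
open Pool.Agent.GBB (zeta psi chi Typ zeta_prim zeta_pow psi_zero psi_add)
open scoped LinearAlgebra.Projectivization

private theorem conj_zeta_dvd {d M : ℕ} (hd : d ∣ M) (hM : M ≠ 0) :
    ((zeta M : ℂˣ) : ℂ) ^ (M / d) = ((zeta d : ℂˣ) : ℂ) := by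
  obtain ⟨e, rfl⟩ := hd
  have hd0 : d ≠ 0 := by
    rintro rfl
    simp at hM
  have he0 : e ≠ 0 := by
    rintro rfl
    simp at hM
  rw [Nat.mul_div_cancel_left _ (Nat.pos_of_ne_zero hd0)]
  unfold zeta
  simp only [Units.val_mk0]
  rw [← Complex.exp_nat_mul]
  congr 1
  have h1 : (d : ℂ) ≠ 0 := by exact_mod_cast hd0
  have h2 : (e : ℂ) ≠ 0 := by exact_mod_cast he0
  push_cast
  field_simp

private theorem conj_psi_nat {d : ℕ} [NeZero d] (n : ℕ) :
    psi ((n : ℕ) : ZMod d) = ((zeta d : ℂˣ) : ℂ) ^ n := by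
  unfold psi
  rw [ZMod.val_natCast]
  exact (pow_eq_pow_mod _ (zeta_prim d).pow_eq_one).symm

private theorem conj_psi_pow {d : ℕ} [NeZero d] (n : ℕ) (k : ZMod d) :
    psi ((n : ZMod d) * k) = psi k ^ n := by
  induction n with
  | zero => rw [Nat.cast_zero, zero_mul, psi_zero, pow_zero]
  | succ n ih => rw [Nat.cast_succ, add_mul, one_mul, psi_add, ih, pow_succ]

/-- Galois conjugation for several roots of unity -/
theorem psi_conj_prod {ι : Type} [Fintype ι] {d : ι → ℕ} [∀ i, NeZero (d i)] {I : Type}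
    (s : Finset I) (c : I → ℚ) (κ : I → ∀ i, ZMod (d i)) (t : ∀ i, (ZMod (d i))ˣ)
    (ht : ∀ i i', (t i : ZMod (d i)).val ≡ (t i' : ZMod (d i')).val
      [MOD Nat.gcd (d i) (d i')])
    (h : ∑ l ∈ s, (c l : ℂ) * ∏ i, psi (κ l i) = 0) :
    ∑ l ∈ s, (c l : ℂ) * ∏ i, psi (-((t i : ZMod (d i)) * κ l i)) = 0 := by
  obtain ⟨T, hT⟩ := WBP.exists_crt Finset.univ d (fun i => (t i : ZMod (d i)).val)
    (fun i _ j _ => ht i j)
  set M : ℕ := ∏ i, d i with hMdef
  have hM : M ≠ 0 := Finset.prod_ne_zero_iff.2 fun i _ => NeZero.ne (d i)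
  have : NeZero M := ⟨hM⟩
  have hdM : ∀ i, d i ∣ M := fun i => Finset.dvd_prod_of_mem d (Finset.mem_univ i)
  have hTt : ∀ i, ((T : ℕ) : ZMod (d i)) = (t i : ZMod (d i)) := by
    intro i
    have h1 := (ZMod.natCast_eq_natCast_iff _ _ _).2 (hT i (Finset.mem_univ i))
    rw [h1, ZMod.natCast_zmod_val]
  have hTM : Nat.Coprime T M := by
    rw [hMdef, Nat.coprime_prod_right_iff]
    intro i _
    have h1 : Nat.gcd T (d i) = Nat.gcd (t i : ZMod (d i)).val (d i) :=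
      (hT i (Finset.mem_univ i)).gcd_eq
    rw [Nat.Coprime, h1]
    exact ZMod.val_coe_unit_coprime (t i)
  have hM1 : Nat.Coprime (M - 1) M := by
    have h1 : Nat.Coprime (M - 1) (M - 1 + 1) := by simp
    rwa [Nat.sub_add_cancel (Nat.pos_of_ne_zero hM)] at h1
  set e : I → ℕ := fun l => ∑ i, (M / d i) * (κ l i).val with he
  set P : Polynomial ℚ := ∑ l ∈ s, Polynomial.C (c l) * Polynomial.X ^ e l with hP
  have hval : ∀ z : ℂ, Polynomial.aeval z P = ∑ l ∈ s, (c l : ℂ) * z ^ e l := by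
    intro z
    rw [hP, map_sum]
    refine Finset.sum_congr rfl fun i _ => ?_
    rw [map_mul, Polynomial.aeval_C, map_pow, Polynomial.aeval_X]
    rfl
  have hpow : ∀ (z : ℂ) (l : I), z ^ e l = ∏ i, (z ^ (M / d i)) ^ (κ l i).val := by
    intro z l
    rw [he]
    simp only
    rw [← Finset.prod_pow_eq_pow_sum]
    exact Finset.prod_congr rfl fun i _ => by rw [pow_mul]
  have h1 : Polynomial.aeval ((zeta M : ℂˣ) : ℂ) P = 0 := by
    rw [hval, ← h]
    refine Finset.sum_congr rfl fun l _ => ?_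
    rw [hpow]
    congr 1
    refine Finset.prod_congr rfl fun i _ => ?_
    rw [conj_zeta_dvd (hdM i) hM]
    rfl
  have pt : IsPrimitiveRoot (((zeta M : ℂˣ) : ℂ) ^ (T * (M - 1))) M :=
    (zeta_prim M).pow_of_coprime _ (Nat.Coprime.mul_left hTM hM1)
  have hdvd : minpoly ℚ (((zeta M : ℂˣ) : ℂ) ^ (T * (M - 1))) ∣ P := by
    rw [← Polynomial.cyclotomic_eq_minpoly_rat pt (Nat.pos_of_ne_zero hM),
      Polynomial.cyclotomic_eq_minpoly_rat (zeta_prim M) (Nat.pos_of_ne_zero hM)]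
    exact minpoly.dvd ℚ _ h1
  have h2 : Polynomial.aeval (((zeta M : ℂˣ) : ℂ) ^ (T * (M - 1))) P = 0 := by
    obtain ⟨Q, hQ⟩ := hdvd
    rw [hQ, map_mul, minpoly.aeval, zero_mul]
  rw [hval] at h2
  rw [← h2]
  refine Finset.sum_congr rfl fun l _ => ?_
  rw [hpow]
  congr 1
  refine Finset.prod_congr rfl fun i _ => ?_
  have h3 : (((zeta M : ℂˣ) : ℂ) ^ (T * (M - 1))) ^ (M / d i) = psi (-(t i : ZMod (d i))) := by
    rw [← pow_mul, mul_comm, pow_mul, conj_zeta_dvd (hdM i) hM, ← conj_psi_nat]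
    congr 1
    rw [Nat.cast_mul, hTt, Nat.cast_sub (Nat.pos_of_ne_zero hM),
      (ZMod.natCast_eq_zero_iff _ _).2 (hdM i)]
    simp
  rw [h3, ← conj_psi_pow, ZMod.natCast_zmod_val]
  congr 1
  ring

end Pool.Agent.BBP
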