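import Pool.Agent.BBP.Defs2

/-!
# Descent to rational coefficients
-/

set_option autoImplicit false

noncomputable section

namespace Pool.Agent.BBP

open Pool.Agent.ZCyc Pool.Agent.DCI57 Pool.Agent.BBM
open Pool.Agent.GBB (zeta psi chi Typ zeta_prim zeta_pow psi_zero psi_add)
open scoped LinearAlgebra.Projectivization

variable {S : Type} [Fintype S] [DecidableEq S] {Φ : Fam S} {m m' k : S → ℕ}

private theorem descent_lin {T : Type} (f : (T →₀ ℚ) →ₗ[ℚ] ℚ) (w : T →₀ ℚ) :
    Finsupp.linearCombination ℂ (fun p : T => ((f (Finsupp.single p 1) : ℚ) : ℂ))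
      (w.mapRange (fun c : ℚ => (c : ℂ)) (by simp)) = ((f w : ℚ) : ℂ) := by
  induction w using Finsupp.induction_linear with
  | zero => simp
  | add a b ha hb =>
    rw [Finsupp.mapRange_add (by intro x y; push_cast; rfl), map_add, map_add, ha, hb]
    push_cast
    rfl
  | single p c =>
    rw [Finsupp.mapRange_single, Finsupp.linearCombination_single, smul_eq_mul]
    have : (Finsupp.single p c : T →₀ ℚ) = c • Finsupp.single p 1 := by simp
    rw [this, map_smul, smul_eq_mul]
    push_cast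
    rfl

/-- rational coefficients -/
theorem ratEq_descent (z : Pts Φ.P m →₀ ℚ)
    (h : z.mapRange (fun c : ℚ => (c : ℂ)) (by simp) ∈ Φ.ratEq ℂ m) : z ∈ Φ.ratEq ℚ m := by
  by_contra hz
  obtain ⟨f, hf, hle⟩ := Submodule.exists_le_ker_of_notMem hz
  have e : ∀ w : Pts Φ.P m →₀ ℚ, w.mapRange (fun c : ℚ => (c : ℂ)) (by simp) =
      Finsupp.mapRange.addMonoidHom (Rat.castHom ℂ).toAddMonoidHom w := by
    intro w
    rfl
  have key : Φ.ratEq ℂ m ≤ LinearMap.ker
      (Finsupp.linearCombination ℂ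
        (fun p : Pts Φ.P m => ((f (Finsupp.single p 1) : ℚ) : ℂ))) := by
    unfold Fam.ratEq
    rw [sup_le_iff]
    constructor
    · rw [Submodule.span_le]
      rintro y ⟨F, i1, i2, i3, i4, i5, i6, x, φ, h1, a, b, v, w, h3, h4, hy⟩
      have hw : (∑ τ : F ≃ₐ[RatFunc ℂ] F, (Finsupp.single (φ (v.map (τ.restrictScalars ℂ))) 1 -
          Finsupp.single (φ (w.map (τ.restrictScalars ℂ))) 1) : Pts Φ.P m →₀ ℚ) ∈
          Φ.ratEq ℚ m := by
        unfold Fam.ratEq
        exact Submodule.mem_sup_left (Submodule.subset_span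
          ⟨F, i1, i2, i3, i4, i5, i6, x, φ, h1, a, b, v, w, h3, h4, rfl⟩)
      have hk := hle hw
      rw [LinearMap.mem_ker] at hk
      have h8 := descent_lin f (∑ τ : F ≃ₐ[RatFunc ℂ] F,
        (Finsupp.single (φ (v.map (τ.restrictScalars ℂ))) 1 -
          Finsupp.single (φ (w.map (τ.restrictScalars ℂ))) 1))
      rw [hk] at h8
      have h9 : (∑ τ : F ≃ₐ[RatFunc ℂ] F, (Finsupp.single (φ (v.map (τ.restrictScalars ℂ))) 1 -
          Finsupp.single (φ (w.map (τ.restrictScalars ℂ))) 1) :
          Pts Φ.P m →₀ ℚ).mapRange (fun c : ℚ => (c : ℂ)) (by simp) = y := by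
        rw [hy, e, map_sum]
        refine Finset.sum_congr rfl fun τ _ => ?_
        rw [map_sub]
        simp
      rw [h9] at h8
      rw [SetLike.mem_coe, LinearMap.mem_ker, h8]
      simp
    · rw [Submodule.span_le]
      rintro y ⟨p, g, hg, hy⟩
      have hw : (Finsupp.single p 1 - Finsupp.single (fun i => Φ.act i.1 (g i) (p i)) 1 :
          Pts Φ.P m →₀ ℚ) ∈ Φ.ratEq ℚ m := by
        unfold Fam.ratEq
        exact Submodule.mem_sup_right (Submodule.subset_span ⟨p, g, hg, rfl⟩)
      have hk := hle hw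
      rw [LinearMap.mem_ker] at hk
      have h8 := descent_lin f
        (Finsupp.single p 1 - Finsupp.single (fun i => Φ.act i.1 (g i) (p i)) 1)
      rw [hk] at h8
      have h9 : (Finsupp.single p 1 - Finsupp.single (fun i => Φ.act i.1 (g i) (p i)) 1 :
          Pts Φ.P m →₀ ℚ).mapRange (fun c : ℚ => (c : ℂ)) (by simp) = y := by
        rw [hy, e, map_sub]
        simp
      rw [h9] at h8
      rw [SetLike.mem_coe, LinearMap.mem_ker, h8]
      simp
  have h1 := key h
  rw [LinearMap.mem_ker, descent_lin] at h1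
  exact hf (by exact_mod_cast h1)

end Pool.Agent.BBP
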