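import Pool.Agent.BBP.Slot2

/-!
# Permutations of the factors
-/

set_option autoImplicit false

noncomputable section

namespace Pool.Agent.BBP

open Pool.Agent.ZCyc Pool.Agent.DCI57 Pool.Agent.BBM
open Pool.Agent.GBB (zeta psi chi Typ zeta_prim zeta_pow psi_zero psi_add)
open scoped LinearAlgebra.Projectivization

variable {S : Type} [Fintype S] [DecidableEq S] {Φ : Fam S} {m : S → ℕ} [∀ s, NeZero (Φ.d s)]

/-- all permutations of the factors which fix the characters -/
theorem E_perm (hG : Φ.Good) (a : ∀ i : Idx m, Fin (Φ.N i.1) → ZMod (Φ.d i.1))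
    (ha : ∀ i : Idx m, ∃ (t : (ZMod (Φ.d i.1))ˣ) (b : Fin (Φ.N i.1) → ℕ),
      Typ (Φ.r i.1) (a i) t b) (hc : ∀ i : Idx m, a i ∈ Φ.Chars i.1)
    (τ : ∀ s, Equiv.Perm (Fin (m s))) (hτ : ∀ i : Idx m, a ⟨i.1, τ i.1 i.2⟩ = a i)
    (p : Pts Φ.P m) :
    E a (permP τ p) = (∏ s, (((Equiv.Perm.sign (τ s) : ℤˣ) : ℤ) : ℂ) ^ Φ.n s) • E a p := by
  induction hs : ∑ s, (τ s).support.card using Nat.strong_induction_on generalizing τ p with
  | _ N ih =>
    by_cases h1 : ∀ s, τ s = 1
    · have h2 : permP τ p = p := by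
        funext i
        simp only [permP]
        rw [h1 i.1]
        rfl
      rw [h2]
      have h3 : ∏ s, (((Equiv.Perm.sign (τ s) : ℤˣ) : ℤ) : ℂ) ^ Φ.n s = 1 := by
        apply Finset.prod_eq_one
        intro s _
        rw [h1 s]
        simp
      rw [h3, one_smul]
    · push Not at h1
      obtain ⟨s₀, hs₀⟩ := h1
      obtain ⟨l, hl⟩ : ∃ l, τ s₀ l ≠ l := by
        by_contra hcon
        push Not at hcon
        exact hs₀ (Equiv.ext hcon)
      obtain ⟨σ, hσ⟩ : ∃ σ, σ = Equiv.swap l (τ s₀ l) := ⟨_, rfl⟩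
      obtain ⟨τ', hτ'⟩ : ∃ τ', τ' = Function.update τ s₀ (σ * τ s₀) := ⟨_, rfl⟩
      obtain ⟨p', hp'⟩ : ∃ p', p' = permP (Function.update
        (1 : ∀ s, Equiv.Perm (Fin (m s))) s₀ (Equiv.swap l (τ s₀ l))) p := ⟨_, rfl⟩
      have e1 : τ' s₀ = σ * τ s₀ := by rw [hτ', Function.update_self]
      have e2 : ∀ s, s ≠ s₀ → τ' s = τ s := by
        intro s hs
        rw [hτ', Function.update_of_ne hs]
      have hlt : ∑ s, (τ' s).support.card < ∑ s, (τ s).support.card := by
        apply Finset.sum_lt_sum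
        · intro s _
          rcases eq_or_ne s s₀ with rfl | hs
          · rw [e1, hσ]
            exact (Equiv.Perm.card_support_swap_mul (f := τ s) hl).le
          · rw [e2 s hs]
        · refine ⟨s₀, Finset.mem_univ _, ?_⟩
          rw [e1, hσ]
          exact Equiv.Perm.card_support_swap_mul (f := τ s₀) hl
      have hinv : ∀ x, a ⟨s₀, σ x⟩ = a ⟨s₀, x⟩ := by
        intro x
        have h4 := hτ ⟨s₀, l⟩
        rcases eq_or_ne x l with rfl | hx
        · rw [hσ, Equiv.swap_apply_left]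
          exact h4
        · rcases eq_or_ne x (τ s₀ l) with rfl | hx'
          · rw [hσ, Equiv.swap_apply_right]
            exact h4.symm
          · rw [hσ, Equiv.swap_apply_of_ne_of_ne hx hx']
      have h3 := ih _ (by rw [← hs]; exact hlt) τ' (by
        rintro ⟨s, x⟩
        rcases eq_or_ne s s₀ with rfl | hs
        · rw [e1]
          exact (hinv (τ s x)).trans (hτ ⟨s, x⟩)
        · change a ⟨s, τ' s x⟩ = a ⟨s, x⟩
          rw [e2 s hs]
          exact hτ ⟨s, x⟩) p' rfl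
      have h4 : permP τ' p' = permP τ p := by
        funext i
        obtain ⟨s, x⟩ := i
        rw [hp']
        simp only [permP]
        rcases eq_or_ne s s₀ with rfl | hs
        · rw [e1, hσ, Function.update_self]
          change p ⟨s, (Equiv.swap l (τ s l) * Equiv.swap l (τ s l)) (τ s x)⟩ = p ⟨s, τ s x⟩
          rw [Equiv.swap_mul_self, Equiv.Perm.one_apply]
        · rw [e2 s hs, Function.update_of_ne hs]
          rfl
      obtain ⟨t, b, htb⟩ := ha ⟨s₀, l⟩
      have h5 : E a p' = (-1 : ℂ) ^ Φ.n s₀ • E a p := by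
        rw [hp']
        exact E_swap_of_op2x a p s₀ l (τ s₀ l) hl.symm (hτ ⟨s₀, l⟩).symm (Φ.n s₀)
          (hG.swap s₀ (a ⟨s₀, l⟩) (hc ⟨s₀, l⟩) t b htb (p ⟨s₀, l⟩).1 (p ⟨s₀, l⟩).2
            (p ⟨s₀, τ s₀ l⟩).1 (p ⟨s₀, τ s₀ l⟩).2)
      rw [← h4, h3, h5, smul_smul]
      congr 1
      have h6 : ∀ s, (((Equiv.Perm.sign (τ s) : ℤˣ) : ℤ) : ℂ) ^ Φ.n s =
          (((Equiv.Perm.sign (τ' s) : ℤˣ) : ℤ) : ℂ) ^ Φ.n s *
            (if s = s₀ then (-1 : ℂ) ^ Φ.n s₀ else 1) := by
        intro s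
        rcases eq_or_ne s s₀ with rfl | hs
        · rw [if_pos rfl, e1, hσ, Equiv.Perm.sign_mul, Equiv.Perm.sign_swap hl.symm]
          push_cast
          rw [← mul_pow]
          congr 1
          ring
        · rw [if_neg hs, e2 s hs, mul_one]
      rw [Finset.prod_congr rfl fun s _ => h6 s, Finset.prod_mul_distrib]
      simp

end Pool.Agent.BBP
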