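import Pool.Agent.BBP.Defs2
import Pool.Agent.DCI57.Final

/-!
# BBP: the class as a function of one factor
-/

set_option autoImplicit false

noncomputable section

namespace Pool.Agent.BBP

open Pool.Agent.ZCyc Pool.Agent.DCI57 Pool.Agent.BBM
open Pool.Agent.GBB (zeta psi chi Typ zeta_prim zeta_pow psi_zero psi_add)
open scoped LinearAlgebra.Projectivization

variable {S : Type} [Fintype S] [DecidableEq S] {Φ : Fam S} {m : S → ℕ}

section

/-- a point of `X s` -/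
private def slo_mk (s : S) (w : ℙ ℂ (Fin (Φ.N s) → ℂ)) (h : w ∈ Diag (Φ.d s) (Φ.c s)) : Φ.P s :=
  ⟨w, h⟩

open Classical in
/-- insertion of a point into the factor with number `i₀` -/
private def slo_ins (q : Pts Φ.P m) (i₀ : Idx m) (w : ℙ ℂ (Fin (Φ.N i₀.1) → ℂ)) : Pts Φ.P m :=
  if h : w ∈ Diag (Φ.d i₀.1) (Φ.c i₀.1) then Function.update q i₀ (slo_mk i₀.1 w h) else q

omit [Fintype S] in
private theorem slo_ins_of (q : Pts Φ.P m) (i₀ : Idx m) {w : ℙ ℂ (Fin (Φ.N i₀.1) → ℂ)}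
    (h : w ∈ Diag (Φ.d i₀.1) (Φ.c i₀.1)) :
    slo_ins q i₀ w = Function.update q i₀ (slo_mk i₀.1 w h) := by
  unfold slo_ins
  rw [dif_pos h]

omit [Fintype S] in
private theorem slo_mem (q : Pts Φ.P m) (i₀ : Idx m) {z : ℙ ℂ (Fin (Φ.N i₀.1) → ℂ) →₀ ℂ}
    (hz : z ∈ ratEquiv ℂ (Diag (Φ.d i₀.1) (Φ.c i₀.1))) :
    Finsupp.lmapDomain ℂ ℂ (slo_ins q i₀) z ∈ Φ.ratEq ℂ m := by
  have hle : ratEquiv ℂ (Diag (Φ.d i₀.1) (Φ.c i₀.1)) ≤
      (Φ.ratEq ℂ m).comap (Finsupp.lmapDomain ℂ ℂ (slo_ins q i₀)) := by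
    conv_lhs => rw [DCI57.ratEquiv]
    rw [Submodule.span_le]
    rintro _ ⟨F, _, _, _, _, _, _, x, φ, h1, h2, a, b, v, w, hv, hw, rfl⟩
    rw [SetLike.mem_coe, Submodule.mem_comap, map_sum]
    apply Submodule.mem_sup_left
    apply Submodule.subset_span
    refine ⟨F, _, _, _, inferInstance, inferInstance, inferInstance,
      Function.update (fun (i : Idx m) j => algebraMap ℂ F ((q i).1.rep j)) i₀ x,
      fun v => slo_ins q i₀ (φ v), ?_, a, b, v, w, hv, hw, ?_⟩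
    · intro v i
      change IsValue v _ (slo_ins q i₀ (φ v) i).1
      rw [slo_ins_of q i₀ (h2 v)]
      by_cases hi : i = i₀
      · subst hi
        rw [Function.update_self, Function.update_self]
        exact h1 v
      · rw [Function.update_of_ne hi, Function.update_of_ne hi]
        refine ⟨1, fun j => ?_⟩
        rw [one_mul, sub_self]
        exact v.vanishes_zero
    · refine Finset.sum_congr rfl fun τ _ => ?_
      rw [map_sub, Finsupp.lmapDomain_apply, Finsupp.lmapDomain_apply, Finsupp.mapDomain_single,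
        Finsupp.mapDomain_single]
  exact hle hz

end

section

variable [∀ s, NeZero (Φ.d s)]

omit [Fintype S] [DecidableEq S] in
private theorem slo_act (s : S) (g : Fin (Φ.N s) → ZMod (Φ.d s)) (p : Φ.P s) :
    (Φ.act s (rtv g) p).1 = DCI57.act (zeta (Φ.d s)) g p.1 := rfl

omit [Fintype S] in
/-- the exponents in the other factors -/
private def slo_ext (i₀ : Idx m)
    (g : ∀ i : {i : Idx m // i ≠ i₀}, Fin (Φ.N i.1.1) → ZMod (Φ.d i.1.1)) :
    ∀ i : Idx m, Fin (Φ.N i.1) → ZMod (Φ.d i.1) := fun i => if h : i = i₀ then 0 else g ⟨i, h⟩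

omit [Fintype S] [∀ s, NeZero (Φ.d s)] in
private theorem slo_split (i₀ : Idx m) (h : Fin (Φ.N i₀.1) → ZMod (Φ.d i₀.1))
    (g : ∀ i : {i : Idx m // i ≠ i₀}, Fin (Φ.N i.1.1) → ZMod (Φ.d i.1.1)) :
    (Equiv.piSplitAt i₀ (fun i : Idx m => Fin (Φ.N i.1) → ZMod (Φ.d i.1))).symm (h, g) =
      Function.update (slo_ext i₀ g) i₀ h := by
  funext i
  by_cases hi : i = i₀
  · subst hi
    simp [Equiv.piSplitAt]
  · simp [Equiv.piSplitAt, hi, slo_ext]

/-- the class is a linear function of the image of the factor under the operator -/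
private theorem slo_lin (a : ∀ i : Idx m, Fin (Φ.N i.1) → ZMod (Φ.d i.1)) (p : Pts Φ.P m)
    (i₀ : Idx m) :
    ∃ L : (ℙ ℂ (Fin (Φ.N i₀.1) → ℂ) →₀ ℂ) →ₗ[ℂ] Φ.V m,
      (∀ z ∈ ratEquiv ℂ (Diag (Φ.d i₀.1) (Φ.c i₀.1)), L z = 0) ∧
      ∀ w : Φ.P i₀.1, E a (Function.update p i₀ w) =
        L (op (zeta (Φ.d i₀.1)) (chi (a i₀)) (Finsupp.single w.1 1)) := by
  refine ⟨∑ g : (∀ i : {i : Idx m // i ≠ i₀}, Fin (Φ.N i.1.1) → ZMod (Φ.d i.1.1)),
    (∏ i, psi (∑ j, a i j * slo_ext i₀ g i j)) • (Φ.ratEq ℂ m).mkQ ∘ₗ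
      Finsupp.lmapDomain ℂ ℂ (slo_ins (actP (slo_ext i₀ g) p) i₀), ?_, ?_⟩
  · intro z hz
    rw [LinearMap.sum_apply]
    refine Finset.sum_eq_zero fun g _ => ?_
    rw [LinearMap.smul_apply, LinearMap.comp_apply, Submodule.mkQ_apply,
      (Submodule.Quotient.mk_eq_zero _).2 (slo_mem _ i₀ hz), smul_zero]
  · intro w
    unfold E
    rw [← Equiv.sum_comp (Equiv.piSplitAt i₀
      (fun i : Idx m => Fin (Φ.N i.1) → ZMod (Φ.d i.1))).symm, Fintype.sum_prod_type,
      Finset.sum_comm, LinearMap.sum_apply]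
    refine Finset.sum_congr rfl fun g _ => ?_
    rw [LinearMap.smul_apply, LinearMap.comp_apply, op_single, map_sum, map_sum, Finset.smul_sum]
    refine Finset.sum_congr rfl fun h _ => ?_
    rw [Finsupp.lmapDomain_apply, Finsupp.mapDomain_single, slo_split]
    have hmem : DCI57.act (zeta (Φ.d i₀.1)) h w.1 ∈ Diag (Φ.d i₀.1) (Φ.c i₀.1) :=
      (Φ.act i₀.1 (rtv h) w).2
    have e1 : actP (Function.update (slo_ext i₀ g) i₀ h) (Function.update p i₀ w) =
        slo_ins (actP (slo_ext i₀ g) p) i₀ (DCI57.act (zeta (Φ.d i₀.1)) h w.1) := by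
      rw [slo_ins_of _ _ hmem]
      funext i
      unfold actP
      by_cases hi : i = i₀
      · subst hi
        rw [Function.update_self, Function.update_self, Function.update_self]
        rfl
      · rw [Function.update_of_ne hi, Function.update_of_ne hi, Function.update_of_ne hi]
    have e2 : ∏ i, psi (∑ j, a i j * Function.update (slo_ext i₀ g) i₀ h i j) =
        (∏ i, psi (∑ j, a i j * slo_ext i₀ g i j)) * psi (∑ j, a i₀ j * h j) := by
      rw [← Finset.mul_prod_erase _ _ (Finset.mem_univ i₀),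
        ← Finset.mul_prod_erase Finset.univ
          (fun i => psi (∑ j, a i j * slo_ext i₀ g i j)) (Finset.mem_univ i₀)]
      have e3 : ∑ j, a i₀ j * slo_ext i₀ g i₀ j = 0 := by
        refine Finset.sum_eq_zero fun j _ => ?_
        rw [slo_ext, dif_pos rfl, Pi.zero_apply, mul_zero]
      have e4 : ∏ i ∈ Finset.univ.erase i₀,
          psi (∑ j, a i j * Function.update (slo_ext i₀ g) i₀ h i j) =
          ∏ i ∈ Finset.univ.erase i₀, psi (∑ j, a i j * slo_ext i₀ g i j) := by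
        refine Finset.prod_congr rfl fun i hi => ?_
        rw [Function.update_of_ne (Finset.mem_erase.1 hi).1]
      rw [e3, psi_zero, one_mul, e4, Function.update_self, mul_comm]
    rw [e1, e2, ← smul_smul]
    congr 1
    unfold cl
    rw [Submodule.mkQ_apply, ← Submodule.Quotient.mk_smul, Finsupp.smul_single, smul_eq_mul,
      mul_one]
    rfl

theorem E_sub_of_op (a : ∀ i : Idx m, Fin (Φ.N i.1) → ZMod (Φ.d i.1)) (p : Pts Φ.P m)
    (i₀ : Idx m) {u v : Φ.P i₀.1}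
    (h : op (zeta (Φ.d i₀.1)) (chi (a i₀)) (Finsupp.single u.1 1) -
      op (zeta (Φ.d i₀.1)) (chi (a i₀)) (Finsupp.single v.1 1) ∈
        ratEquiv ℂ (Diag (Φ.d i₀.1) (Φ.c i₀.1))) :
    E a (Function.update p i₀ u) = E a (Function.update p i₀ v) := by
  obtain ⟨L, hL, hE⟩ := slo_lin a p i₀
  have h1 := hL _ h
  rw [map_sub, ← hE, ← hE, sub_eq_zero] at h1
  exact h1

theorem E_zero_of_op (a : ∀ i : Idx m, Fin (Φ.N i.1) → ZMod (Φ.d i.1)) (p : Pts Φ.P m)
    (i₀ : Idx m)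
    (h : op (zeta (Φ.d i₀.1)) (chi (a i₀)) (Finsupp.single (p i₀).1 1) ∈
      ratEquiv ℂ (Diag (Φ.d i₀.1) (Φ.c i₀.1))) : E a p = 0 := by
  obtain ⟨L, hL, hE⟩ := slo_lin a p i₀
  have h1 := hL _ h
  rwa [← hE, Function.update_eq_self] at h1

/-- from `DCI57.trivial_part` -/
theorem E_const (a : ∀ i : Idx m, Fin (Φ.N i.1) → ZMod (Φ.d i.1)) (p : Pts Φ.P m)
    (i₀ : Idx m) (h0 : a i₀ = 0) (u : Φ.P i₀.1) : E a (Function.update p i₀ u) = E a p := by
  have h1 : ∀ t, chi (a i₀) t = 1 := by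
    intro t
    rw [h0]
    show psi (∑ j, (0 : Fin (Φ.N i₀.1) → ZMod (Φ.d i₀.1)) j * t j) = 1
    simp [psi_zero]
  have h2 := E_sub_of_op a p i₀ (u := u) (v := p i₀)
    (trivial_part (R := ℂ) (zeta_prim (Φ.d i₀.1)) (Φ.c i₀.1) u.2 (p i₀).2 h1)
  rwa [Function.update_eq_self] at h2

end

end Pool.Agent.BBP
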