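import Pool.Agent.BBP.Basic
import Pool.Agent.BBP.Slot1
import Pool.Agent.BBP.Coeff
import Pool.Agent.BBP.Perm
import Pool.Agent.BBP.Descent
import Pool.Agent.BBP.Conj

/-!
# The theorem for automorphisms
-/

set_option autoImplicit false

noncomputable section

namespace Pool.Agent.BBP

open Pool.Agent.ZCyc Pool.Agent.DCI57 Pool.Agent.BBM
open Pool.Agent.GBB (zeta psi chi Typ zeta_prim zeta_pow psi_zero psi_add)
open scoped LinearAlgebra.Projectivization

variable {S : Type} [Fintype S] [DecidableEq S] {Φ : Fam S} {k : S → ℕ}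

/-- the vertices of the product of differences -/
private def vtx (x y : Pts Φ.P k) (T : Finset (Idx k)) : Pts Φ.P k :=
  fun i => if i ∈ T then y i else x i

/-- the permuted vertices -/
private def wtx (x y : Pts Φ.P k) (σ : ∀ s, Equiv.Perm (Fin (k s))) (T : Finset (Idx k)) :
    Pts Φ.P k := permP σ (vtx x y T)

/-- class of the image of a zero-cycle -/
private lemma push_class (γ : ((∀ s, Equiv.Perm (Fin (k s))) × (∀ i : Idx k, Φ.G i.1)) →₀ ℚ)
    (x y : Pts Φ.P k) :
    (Submodule.Quotient.mk ((push γ (cyc ℚ Finset.univ x y)).mapRange (fun c : ℚ => (c : ℂ))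
      (by simp)) : Φ.V k) = ∑ g ∈ γ.support, (γ g : ℂ) • ∑ T : Finset (Idx k),
        ((-1 : ℂ) ^ T.card) • cl (symAct Φ.act g.1 g.2 (vtx x y T)) := by
  classical
  have h2 : (push γ (cyc ℚ Finset.univ x y)).mapRange (fun c : ℚ => (c : ℂ)) (by simp) =
      ∑ g ∈ γ.support, (γ g : ℂ) • ∑ T : Finset (Idx k),
        ((-1 : ℂ) ^ T.card) • Finsupp.single (symAct Φ.act g.1 g.2 (vtx x y T)) (1 : ℂ) := by
    have key : ∀ z : Pts Φ.P k →₀ ℚ, z.mapRange (fun c : ℚ => (c : ℂ)) (by simp) =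
        Finsupp.mapRange.addMonoidHom ((algebraMap ℚ ℂ).toAddMonoidHom) z := by
      intro z
      rfl
    rw [key]
    unfold push cyc
    rw [Finsupp.sum, map_sum]
    apply Finset.sum_congr rfl
    intro g _
    rw [Finsupp.mapDomain_finsetSum, Finset.smul_sum, map_sum, Finset.smul_sum,
      Finset.powerset_univ]
    apply Finset.sum_congr rfl
    intro T _
    rw [Finsupp.mapDomain_single, Finsupp.smul_single, Finsupp.smul_single,
      Finsupp.smul_single, Finsupp.mapRange.addMonoidHom_apply, Finsupp.mapRange_single]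
    congr 1
    simp
  rw [h2]
  unfold cl
  rw [← Submodule.mkQ_apply, map_sum]
  apply Finset.sum_congr rfl
  intro g _
  rw [map_smul, map_sum]
  congr 1

/-- the sum over the vertices is zero if the class does not depend on one factor -/
private lemma alt_zero {M : Type} [AddCommGroup M] [Module ℂ M] (i₀ : Idx k)
    (F : Finset (Idx k) → M) (hF : ∀ T, F (symmDiff T {i₀}) = F T) :
    ∑ T : Finset (Idx k), ((-1 : ℂ) ^ T.card) • F T = 0 := by
  classical
  apply Finset.sum_involution (fun T _ => symmDiff T {i₀})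
  · intro T _
    rw [hF T, ← add_smul]
    have h7 : ((-1 : ℂ) ^ T.card) + (-1 : ℂ) ^ (symmDiff T {i₀}).card = 0 := by
      by_cases hS : i₀ ∈ T
      · have : symmDiff T {i₀} = T.erase i₀ := by
          ext l
          rw [Finset.mem_symmDiff, Finset.mem_erase, Finset.mem_singleton]
          constructor
          · rintro (⟨h, h'⟩ | ⟨h, h'⟩)
            · exact ⟨h', h⟩
            · subst h
              exact absurd hS h'
          · rintro ⟨h, h'⟩
            exact Or.inl ⟨h', h⟩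
        rw [this]
        have h8 := Finset.card_erase_add_one hS
        rw [← h8, pow_succ]
        ring
      · have : symmDiff T {i₀} = insert i₀ T := by
          ext l
          rw [Finset.mem_symmDiff, Finset.mem_insert, Finset.mem_singleton]
          constructor
          · rintro (⟨h, h'⟩ | ⟨h, h'⟩)
            · exact Or.inr h
            · exact Or.inl h
          · rintro (h | h)
            · subst h
              exact Or.inr ⟨rfl, hS⟩
            · refine Or.inl ⟨h, ?_⟩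
              rintro rfl
              exact hS h
        rw [this, Finset.card_insert_of_notMem hS, pow_succ]
        ring
    rw [h7, zero_smul]
  · intro T _ _ h
    have : i₀ ∈ symmDiff T {i₀} ↔ i₀ ∈ T := by rw [h]
    rw [Finset.mem_symmDiff] at this
    by_cases hS : i₀ ∈ T <;> simp [hS] at this
  · intro T _
    exact symmDiff_symmDiff_cancel_right _ _
  · intro T _
    exact Finset.mem_univ _

variable [∀ s, NeZero (Φ.d s)]

/-- the part of one character -/
private lemma part_zero (hG : Φ.Good)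
    (γ : ((∀ s, Equiv.Perm (Fin (k s))) × (∀ i : Idx k, Φ.G i.1)) →₀ ℚ) (hγ : KillsForms γ)
    (x y : Pts Φ.P k)
    (z : ((∀ s, Equiv.Perm (Fin (k s))) × (∀ i : Idx k, Φ.G i.1)) →
      ∀ i : Idx k, Fin (Φ.N i.1) → ZMod (Φ.d i.1)) (hz : ∀ g i, g.2 i = rtv (z g i))
    (a : ∀ i : Idx k, Fin (Φ.N i.1) → ZMod (Φ.d i.1)) :
    ∑ g ∈ γ.support, (γ g : ℂ) • ∑ T : Finset (Idx k), ((-1 : ℂ) ^ T.card) •
      (∏ i, psi (-∑ j, a i j * z g i j)) • E a (wtx x y g.1 T) = 0 := by
  classical
  -- case (i): a component of the character is trivial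
  by_cases c1 : ∃ i₀, a i₀ = 0
  · obtain ⟨i₀, hi₀⟩ := c1
    apply Finset.sum_eq_zero
    intro g _
    rw [alt_zero (⟨i₀.1, g.1 i₀.1 i₀.2⟩ : Idx k), smul_zero]
    intro T
    congr 1
    set i' : Idx k := ⟨i₀.1, g.1 i₀.1 i₀.2⟩ with hi'
    have h2 : wtx x y g.1 (symmDiff T {i'}) =
        Function.update (wtx x y g.1 T) i₀ (wtx x y g.1 (symmDiff T {i'}) i₀) := by
      funext i
      by_cases hi : i = i₀
      · subst hi
        rw [Function.update_self]
      · rw [Function.update_of_ne hi]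
        have h3 : (⟨i.1, g.1 i.1 i.2⟩ : Idx k) ≠ i' := by
          intro h
          apply hi
          obtain ⟨s, l⟩ := i
          obtain ⟨s', l'⟩ := i₀
          rw [hi'] at h
          obtain ⟨h4, h5⟩ := Sigma.mk.inj_iff.1 h
          simp only at h4
          subst h4
          have h6 := (g.1 s).injective (eq_of_heq h5)
          simp only at h6
          rw [h6]
        simp only [wtx, vtx, permP]
        have h4 : ((⟨i.1, g.1 i.1 i.2⟩ : Idx k) ∈ symmDiff T {i'}) ↔
            (⟨i.1, g.1 i.1 i.2⟩ : Idx k) ∈ T := by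
          rw [Finset.mem_symmDiff, Finset.mem_singleton]
          constructor
          · rintro (⟨h, _⟩ | ⟨h, _⟩)
            · exact h
            · exact absurd h h3
          · intro h
            exact Or.inl ⟨h, h3⟩
        simp only [h4]
    rw [h2]
    exact E_const a (wtx x y g.1 T) i₀ hi₀ _
  push Not at c1
  -- all the E vanish
  by_cases c2 : ∀ u : Pts Φ.P k, E a u = 0
  · apply Finset.sum_eq_zero
    intro g _
    have : ∑ T : Finset (Idx k), ((-1 : ℂ) ^ T.card) •
        (∏ i, psi (-∑ j, a i j * z g i j)) • E a (wtx x y g.1 T) = 0 := by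
      apply Finset.sum_eq_zero
      intro T _
      rw [c2, smul_zero, smul_zero]
    rw [this, smul_zero]
  have hsum : ∀ i, ∑ j, a i j = 0 := by
    intro i
    by_contra hcon
    exact c2 fun u => E_zero_of_sum a u i hcon
  have hchar : ∀ i, a i ∈ Φ.Chars i.1 := by
    intro i
    by_contra hcon
    exact c2 fun u => E_zero_of_not_char a u i hcon
  obtain ⟨t, b, hTb, htt⟩ := (hG.chars k a hchar c1 hsum).resolve_left c2
  have hb0 : ∀ i j, 0 < b i j := fun i => (hTb i).1
  have hbs : ∀ i : Idx k, ∑ j, b i j = Φ.r i.1 * Φ.d i.1 := fun i => (hTb i).2.1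
  have hab : ∀ (i : Idx k) (j : Fin (Φ.N i.1)),
      a i j = (t i : ZMod (Φ.d i.1)) * (b i j : ZMod (Φ.d i.1)) := fun i => (hTb i).2.2.1
  have hbc : ∀ i : Idx k, (fun j => (b i j : ZMod (Φ.d i.1))) ∈ Φ.Chars i.1 := by
    intro i h hh
    have h1 := hchar i h hh
    have h2 : ∑ j, (b i j : ZMod (Φ.d i.1)) * h j =
        (((t i)⁻¹ : (ZMod (Φ.d i.1))ˣ) : ZMod (Φ.d i.1)) * ∑ j, a i j * h j := by
      rw [Finset.mul_sum]
      refine Finset.sum_congr rfl fun j _ => ?_
      rw [hab, ← mul_assoc, ← mul_assoc, Units.inv_mul, one_mul]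
    rw [h2, h1, mul_zero]
  -- exchange the sums
  have hswap : ∑ g ∈ γ.support, (γ g : ℂ) • ∑ T : Finset (Idx k),
      ((-1 : ℂ) ^ T.card) • (∏ i, psi (-∑ j, a i j * z g i j)) • E a (wtx x y g.1 T) =
      ∑ T : Finset (Idx k), ((-1 : ℂ) ^ T.card) • ∑ g ∈ γ.support,
        ((γ g : ℂ) * ∏ i, psi (-∑ j, a i j * z g i j)) • E a (wtx x y g.1 T) := by
    simp only [Finset.smul_sum]
    rw [Finset.sum_comm]
    apply Finset.sum_congr rfl
    intro T _
    apply Finset.sum_congr rfl
    intro g _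
    simp only [smul_smul]
    congr 1
    ring
  rw [hswap]
  apply Finset.sum_eq_zero
  intro T _
  have key : ∑ g ∈ γ.support,
        ((γ g : ℂ) * ∏ i, psi (-∑ j, a i j * z g i j)) • E a (wtx x y g.1 T) = 0 := by
    let f : ((∀ s, Equiv.Perm (Fin (k s))) × (∀ i : Idx k, Φ.G i.1)) →
        (∀ i : Idx k, Fin (Φ.N i.1) → ℕ) := fun g i j => b ⟨i.1, (g.1 i.1).symm i.2⟩ j
    rw [← Finset.sum_fiberwise_of_maps_to (s := γ.support) (t := γ.support.image f)
      (g := f) (fun g hg => Finset.mem_image_of_mem f hg)]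
    apply Finset.sum_eq_zero
    intro e he
    obtain ⟨g₀, hg₀, hge⟩ := Finset.mem_image.1 he
    -- the sign
    have hsign : ∀ g, f g = e → E a (wtx x y g.1 T) =
        ((∏ s, (((Equiv.Perm.sign (g.1 s) : ℤˣ) : ℤ) : ℂ) ^ Φ.n s) *
          (∏ s, (((Equiv.Perm.sign (g₀.1 s) : ℤˣ) : ℤ) : ℂ) ^ Φ.n s)) •
            E a (wtx x y g₀.1 T) := by
      intro g hg
      let τ : ∀ s, Equiv.Perm (Fin (k s)) := fun s => (g₀.1 s)⁻¹ * g.1 s
      have hτ1 : ∀ s l, τ s l = (g₀.1 s).symm (g.1 s l) := fun s l => rfl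
      have hτa : ∀ i : Idx k, a ⟨i.1, τ i.1 i.2⟩ = a i := by
        intro i
        funext j
        rw [hab, hab]
        have h2 := congrFun (congrFun (hg.trans hge.symm) ⟨i.1, g.1 i.1 i.2⟩) j
        have h2' : b ⟨i.1, (g.1 i.1).symm (g.1 i.1 i.2)⟩ j = b ⟨i.1, τ i.1 i.2⟩ j := h2
        rw [Equiv.symm_apply_apply] at h2'
        have h3 : b ⟨i.1, τ i.1 i.2⟩ j = b i j := h2'.symm
        have h4 : (t ⟨i.1, τ i.1 i.2⟩ : ZMod (Φ.d i.1)) = (t i : ZMod (Φ.d i.1)) := by
          have h5 := htt ⟨i.1, τ i.1 i.2⟩ i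
          rw [Nat.gcd_self] at h5
          have h6 := (ZMod.natCast_eq_natCast_iff _ _ _).2 h5
          rwa [ZMod.natCast_zmod_val, ZMod.natCast_zmod_val] at h6
        rw [h3, h4]
      have h3 := E_perm hG a (fun i => ⟨t i, b i, hTb i⟩) hchar τ hτa (wtx x y g₀.1 T)
      have h4 : permP τ (wtx x y g₀.1 T) = wtx x y g.1 T := by
        funext i
        have e1 : g₀.1 i.1 (τ i.1 i.2) = g.1 i.1 i.2 := Equiv.apply_symm_apply _ _
        simp only [wtx, permP]
        rw [e1]
      rw [h4] at h3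
      rw [h3]
      congr 1
      rw [← Finset.prod_mul_distrib]
      refine Finset.prod_congr rfl fun s _ => ?_
      have h5 : Equiv.Perm.sign (τ s) = Equiv.Perm.sign (g₀.1 s) * Equiv.Perm.sign (g.1 s) := by
        rw [Equiv.Perm.sign_mul, Equiv.Perm.sign_inv]
      rw [h5, ← mul_pow]
      push_cast
      ring
    have h6 : ∑ g ∈ γ.support with f g = e,
        ((γ g : ℂ) * ∏ i, psi (-∑ j, a i j * z g i j)) • E a (wtx x y g.1 T) =
        (∑ g ∈ γ.support with f g = e,
          (((γ g * ∏ s, (((Equiv.Perm.sign (g.1 s) : ℤˣ) : ℤ) : ℚ) ^ Φ.n s : ℚ)) : ℂ) *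
          ∏ i, psi (-((t i : ZMod (Φ.d i.1)) * ∑ j, (b i j : ZMod (Φ.d i.1)) * z g i j))) •
          ((∏ s, (((Equiv.Perm.sign (g₀.1 s) : ℤˣ) : ℤ) : ℂ) ^ Φ.n s) •
            E a (wtx x y g₀.1 T)) := by
      rw [Finset.sum_smul]
      apply Finset.sum_congr rfl
      intro g hg
      rw [hsign g (Finset.mem_filter.1 hg).2, smul_smul, smul_smul]
      congr 1
      have h7 : ∀ i : Idx k, -∑ j, a i j * z g i j =
          -((t i : ZMod (Φ.d i.1)) * ∑ j, (b i j : ZMod (Φ.d i.1)) * z g i j) := by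
        intro i
        rw [Finset.mul_sum]
        congr 1
        apply Finset.sum_congr rfl
        intro j _
        rw [hab, mul_assoc]
      rw [Finset.prod_congr rfl fun i _ => by rw [h7 i]]
      push_cast
      ring
    rw [h6]
    have h8 := coeff_forms γ hγ z hz b e hb0 hbs hbc
    have h9 : ∀ g, (f g = e) ↔ (∀ (i : Idx k) (j : Fin (Φ.N i.1)),
        b ⟨i.1, (g.1 i.1).symm i.2⟩ j = e i j) := by
      intro g
      constructor
      · intro h i j
        exact congrFun (congrFun h i) j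
      · intro h
        funext i j
        exact h i j
    simp only [h9]
    have h10 := psi_conj_prod (d := fun i : Idx k => Φ.d i.1) (γ.support.filter
      (fun g => ∀ (i : Idx k) (j : Fin (Φ.N i.1)), b ⟨i.1, (g.1 i.1).symm i.2⟩ j = e i j))
      (fun g => γ g * ∏ s, (((Equiv.Perm.sign (g.1 s) : ℤˣ) : ℤ) : ℚ) ^ Φ.n s)
      (fun g i => ∑ j, (b i j : ZMod (Φ.d i.1)) * z g i j) t htt h8
    rw [h10, zero_smul]
  rw [key, smul_zero]

private lemma main_aux (hG : Φ.Good)
    (γ : ((∀ s, Equiv.Perm (Fin (k s))) × (∀ i : Idx k, Φ.G i.1)) →₀ ℚ) (hγ : KillsForms γ)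
    (x y : Pts Φ.P k) :
    ∑ g ∈ γ.support, (γ g : ℂ) • ∑ T : Finset (Idx k),
      ((-1 : ℂ) ^ T.card) • cl (symAct Φ.act g.1 g.2 (vtx x y T)) = 0 := by
  classical
  -- logarithms of the roots of unity
  have hz : ∀ g : (∀ s, Equiv.Perm (Fin (k s))) × (∀ i : Idx k, Φ.G i.1), ∀ i : Idx k,
      ∃ h : Fin (Φ.N i.1) → ZMod (Φ.d i.1), g.2 i = rtv h := fun g i => exists_rtv (g.2 i)
  choose z hz using hz
  have hact : ∀ (g : (∀ s, Equiv.Perm (Fin (k s))) × (∀ i : Idx k, Φ.G i.1)) T,
      symAct Φ.act g.1 g.2 (vtx x y T) = actP (z g) (wtx x y g.1 T) := by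
    intro g T
    funext i
    simp only [symAct, actP, wtx, permP, hz g i]
  -- Fourier expansion
  have hdc : (∏ i : Idx k, (Φ.d i.1 : ℂ) ^ Φ.N i.1) ≠ 0 := by
    rw [Finset.prod_ne_zero_iff]
    intro i _
    exact pow_ne_zero _ (Nat.cast_ne_zero.2 (NeZero.ne _))
  have hexp : (∏ i : Idx k, (Φ.d i.1 : ℂ) ^ Φ.N i.1) •
      (∑ g ∈ γ.support, (γ g : ℂ) • ∑ T : Finset (Idx k),
      ((-1 : ℂ) ^ T.card) • cl (symAct Φ.act g.1 g.2 (vtx x y T))) =
      ∑ a : (∀ i : Idx k, Fin (Φ.N i.1) → ZMod (Φ.d i.1)),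
        ∑ g ∈ γ.support, (γ g : ℂ) • ∑ T : Finset (Idx k),
        ((-1 : ℂ) ^ T.card) • (∏ i, psi (-∑ j, a i j * z g i j)) •
          E a (wtx x y g.1 T) := by
    rw [Finset.sum_comm, Finset.smul_sum]
    apply Finset.sum_congr rfl
    intro g _
    rw [← Finset.smul_sum, smul_comm]
    congr 1
    rw [Finset.sum_comm, Finset.smul_sum]
    apply Finset.sum_congr rfl
    intro T _
    rw [← Finset.smul_sum, smul_comm]
    congr 1
    rw [← sum_E]
    apply Finset.sum_congr rfl
    intro a _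
    rw [hact, E_act]
  have h0 := hexp.trans (Finset.sum_eq_zero fun a _ => part_zero hG γ hγ x y z hz a)
  exact (smul_eq_zero.1 h0).resolve_left hdc

theorem main (hG : Φ.Good)
    (γ : ((∀ s, Equiv.Perm (Fin (k s))) × (∀ i : Idx k, Φ.G i.1)) →₀ ℚ) (hγ : KillsForms γ)
    (x y : Pts Φ.P k) : push γ (cyc ℚ Finset.univ x y) ∈ Φ.ratEq ℚ k := by
  apply ratEq_descent
  rw [← Submodule.Quotient.mk_eq_zero, push_class]
  exact main_aux hG γ hγ x y

end Pool.Agent.BBP
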