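import Pool.Agent.BBP.Basic
import Pool.Agent.ZCyc.Basic

/-!
# BBP: the class as a function of two factors
-/

set_option autoImplicit false

noncomputable section

namespace Pool.Agent.BBP

open Pool.Agent.ZCyc Pool.Agent.DCI57 Pool.Agent.BBM
open Pool.Agent.GBB (zeta psi chi Typ zeta_prim zeta_pow psi_zero psi_add)
open scoped LinearAlgebra.Projectivization

private theorem sl2_sum {I : Type*} [Fintype I] [DecidableEq I] {A : I → Type*}
    [∀ i, Fintype (A i)] {M : Type*} [AddCommMonoid M] (i : I) (f : (∀ i, A i) → M) :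
    ∑ g : (∀ i, A i), ∑ h : A i, f (Function.update g i h) =
      Fintype.card (A i) • ∑ g, f g := by
  let e : (∀ i, A i) × A i ≃ (∀ i, A i) × A i :=
    { toFun := fun x => (Function.update x.1 i x.2, x.1 i)
      invFun := fun x => (Function.update x.1 i x.2, x.1 i)
      left_inv := fun x => by simp
      right_inv := fun x => by simp }
  have h1 : ∑ g : (∀ i, A i), ∑ h : A i, f (Function.update g i h) =
      ∑ x : (∀ i, A i) × A i, f (e x).1 := by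
    rw [Fintype.sum_prod_type]
    rfl
  rw [h1, Equiv.sum_comp e (fun x => f x.1), Fintype.sum_prod_type]
  simp only [Finset.sum_const, Finset.card_univ, Finset.smul_sum]

variable {S : Type} [Fintype S] [DecidableEq S] {Φ : Fam S} {m : S → ℕ}

/-- put `u`, `v` at the factors `i₁`, `i₂` -/
private def sl2_up (p : Pts Φ.P m) (i₁ i₂ : Idx m) (u : Φ.P i₁.1) (v : Φ.P i₂.1) : Pts Φ.P m :=
  Function.update (Function.update p i₁ u) i₂ v

open Classical in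
/-- the same for points of the projective spaces -/
private def sl2_pt (p : Pts Φ.P m) (i₁ i₂ : Idx m)
    (z : ℙ ℂ (Fin (Φ.N i₁.1) → ℂ) × ℙ ℂ (Fin (Φ.N i₂.1) → ℂ)) : Pts Φ.P m :=
  if h : z.1 ∈ Diag (Φ.d i₁.1) (Φ.c i₁.1) ∧ z.2 ∈ Diag (Φ.d i₂.1) (Φ.c i₂.1) then
    sl2_up p i₁ i₂ ⟨z.1, h.1⟩ ⟨z.2, h.2⟩ else p

omit [Fintype S] in
private theorem sl2_pt_of_mem (p : Pts Φ.P m) (i₁ i₂ : Idx m)
    {x : ℙ ℂ (Fin (Φ.N i₁.1) → ℂ)} {y : ℙ ℂ (Fin (Φ.N i₂.1) → ℂ)}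
    (hx : x ∈ Diag (Φ.d i₁.1) (Φ.c i₁.1)) (hy : y ∈ Diag (Φ.d i₂.1) (Φ.c i₂.1)) :
    sl2_pt p i₁ i₂ (x, y) = sl2_up p i₁ i₂ ⟨x, hx⟩ ⟨y, hy⟩ :=
  dif_pos (⟨hx, hy⟩ : (x, y).1 ∈ Diag (Φ.d i₁.1) (Φ.c i₁.1) ∧
    (x, y).2 ∈ Diag (Φ.d i₂.1) (Φ.c i₂.1))

private theorem sl2_const {N : ℕ} {F : Type} [Field F] [Algebra ℂ F] (v : Place ℂ F)
    (q : ℙ ℂ (Fin N → ℂ)) : IsValue v (fun j => algebraMap ℂ F (q.rep j)) q := by
  refine ⟨1, fun j => ?_⟩
  rw [one_mul, sub_self]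
  exact v.vanishes_zero

omit [Fintype S] in
private theorem sl2_ratEq (p : Pts Φ.P m) (i₁ i₂ : Idx m)
    {z : ℙ ℂ (Fin (Φ.N i₁.1) → ℂ) × ℙ ℂ (Fin (Φ.N i₂.1) → ℂ) →₀ ℂ}
    (hz : z ∈ ratEquiv2x ℂ (Diag (Φ.d i₁.1) (Φ.c i₁.1)) (Diag (Φ.d i₂.1) (Φ.c i₂.1))) :
    Finsupp.lmapDomain ℂ ℂ (sl2_pt p i₁ i₂) z ∈ Φ.ratEq ℂ m := by
  have hle : ratEquiv2x ℂ (Diag (Φ.d i₁.1) (Φ.c i₁.1)) (Diag (Φ.d i₂.1) (Φ.c i₂.1)) ≤
      (Φ.ratEq ℂ m).comap (Finsupp.lmapDomain ℂ ℂ (sl2_pt p i₁ i₂)) := by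
    conv_lhs => rw [ratEquiv2x]
    rw [Submodule.span_le]
    rintro _ ⟨F, j1, j2, j3, j4, j5, j6, x, y, φ, ψ, h1, h2, h3, h4, a, b, v, w, hv, hw, rfl⟩
    rw [SetLike.mem_coe, Submodule.mem_comap, map_sum]
    refine Submodule.mem_sup_left (Submodule.subset_span ⟨F, j1, j2, j3, j4, j5, j6,
      Function.update (Function.update
        (fun i j => algebraMap ℂ F ((p i).1.rep j) : ∀ i : Idx m, Fin (Φ.N i.1) → F) i₁ x) i₂ y,
      fun v => sl2_up p i₁ i₂ ⟨φ v, h3 v⟩ ⟨ψ v, h4 v⟩, ?_, a, b, v, w, hv, hw, ?_⟩)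
    · intro v i
      by_cases hi2 : i = i₂
      · subst hi2
        simp only [sl2_up, Function.update_self]
        exact h2 v
      · by_cases hi1 : i = i₁
        · subst hi1
          simp only [sl2_up, Function.update_of_ne hi2, Function.update_self]
          exact h1 v
        · simp only [sl2_up, Function.update_of_ne hi2, Function.update_of_ne hi1]
          exact sl2_const v (p i).1
    · refine Finset.sum_congr rfl fun τ _ => ?_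
      rw [map_sub, Finsupp.lmapDomain_apply, Finsupp.lmapDomain_apply,
        Finsupp.mapDomain_single, Finsupp.mapDomain_single, sl2_pt_of_mem p i₁ i₂ (h3 _) (h4 _),
        sl2_pt_of_mem p i₁ i₂ (h3 _) (h4 _)]
  exact hle hz

variable [∀ s, NeZero (Φ.d s)]

/-- the sum over the other factors -/
private def sl2_L (a : ∀ i : Idx m, Fin (Φ.N i.1) → ZMod (Φ.d i.1)) (p : Pts Φ.P m)
    (i₁ i₂ : Idx m) :
    (ℙ ℂ (Fin (Φ.N i₁.1) → ℂ) × ℙ ℂ (Fin (Φ.N i₂.1) → ℂ) →₀ ℂ) →ₗ[ℂ] Φ.V m :=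
  ∑ g : (∀ i : Idx m, Fin (Φ.N i.1) → ZMod (Φ.d i.1)),
    (∏ i, if i = i₁ ∨ i = i₂ then 1 else psi (∑ j, a i j * g i j)) •
      ((Φ.ratEq ℂ m).mkQ.comp (Finsupp.lmapDomain ℂ ℂ (sl2_pt (actP g p) i₁ i₂)))

private theorem sl2_L_zero (a : ∀ i : Idx m, Fin (Φ.N i.1) → ZMod (Φ.d i.1)) (p : Pts Φ.P m)
    (i₁ i₂ : Idx m) {z : ℙ ℂ (Fin (Φ.N i₁.1) → ℂ) × ℙ ℂ (Fin (Φ.N i₂.1) → ℂ) →₀ ℂ}
    (hz : z ∈ ratEquiv2x ℂ (Diag (Φ.d i₁.1) (Φ.c i₁.1)) (Diag (Φ.d i₂.1) (Φ.c i₂.1))) :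
    sl2_L a p i₁ i₂ z = 0 := by
  unfold sl2_L
  rw [LinearMap.sum_apply]
  refine Finset.sum_eq_zero fun g _ => ?_
  rw [LinearMap.smul_apply, LinearMap.comp_apply, Submodule.mkQ_apply,
    (Submodule.Quotient.mk_eq_zero _).2 (sl2_ratEq (actP g p) i₁ i₂ hz), smul_zero]

private theorem sl2_split {I : Type*} [Fintype I] [DecidableEq I] {A : Type*} [CommMonoid A]
    (i₁ i₂ : I) (hi : i₁ ≠ i₂) (G : I → A) :
    ∏ i, G i = (∏ i, if i = i₁ ∨ i = i₂ then 1 else G i) * (G i₁ * G i₂) := by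
  have h1 : ∀ i, G i = (if i = i₁ ∨ i = i₂ then 1 else G i) *
      ((if i = i₁ then G i else 1) * (if i = i₂ then G i else 1)) := by
    intro i
    by_cases h1 : i = i₁
    · have h2 : i ≠ i₂ := by
        rw [h1]
        exact hi
      rw [if_pos (Or.inl h1), if_pos h1, if_neg h2, one_mul, mul_one]
    · by_cases h2 : i = i₂
      · rw [if_pos (Or.inr h2), if_neg h1, if_pos h2, one_mul, one_mul]
      · rw [if_neg (by tauto), if_neg h1, if_neg h2, mul_one, mul_one]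
  conv_lhs => rw [Finset.prod_congr rfl fun i _ => h1 i]
  rw [Finset.prod_mul_distrib, Finset.prod_mul_distrib]
  congr 1
  rw [Finset.prod_ite_eq' Finset.univ i₁ G, Finset.prod_ite_eq' Finset.univ i₂ G,
    if_pos (Finset.mem_univ _), if_pos (Finset.mem_univ _)]

private theorem sl2_L_op (a : ∀ i : Idx m, Fin (Φ.N i.1) → ZMod (Φ.d i.1)) (p : Pts Φ.P m)
    (i₁ i₂ : Idx m) (hi : i₁ ≠ i₂) (u : Φ.P i₁.1) (v : Φ.P i₂.1) :
    sl2_L a p i₁ i₂ (op2x (zeta (Φ.d i₁.1)) (zeta (Φ.d i₂.1)) (chi (a i₁)) (chi (a i₂))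
      (Finsupp.single (u.1, v.1) 1)) =
      Fintype.card (Fin (Φ.N i₁.1) → ZMod (Φ.d i₁.1)) •
        Fintype.card (Fin (Φ.N i₂.1) → ZMod (Φ.d i₂.1)) • E a (sl2_up p i₁ i₂ u v) := by
  set F : (∀ i : Idx m, Fin (Φ.N i.1) → ZMod (Φ.d i.1)) → Φ.V m := fun g =>
    (∏ i, psi (∑ j, a i j * g i j)) • cl (actP g (sl2_up p i₁ i₂ u v)) with hF
  have hE : E a (sl2_up p i₁ i₂ u v) = ∑ g, F g := rfl
  rw [hE, ← sl2_sum i₂ F, ← sl2_sum i₁ fun g => ∑ h, F (Function.update g i₂ h)]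
  have hop : op2x (zeta (Φ.d i₁.1)) (zeta (Φ.d i₂.1)) (chi (a i₁)) (chi (a i₂))
      (Finsupp.single (u.1, v.1) 1) =
      ∑ g : Fin (Φ.N i₁.1) → ZMod (Φ.d i₁.1), ∑ h : Fin (Φ.N i₂.1) → ZMod (Φ.d i₂.1),
        Finsupp.single (DCI57.act (zeta (Φ.d i₁.1)) g u.1, DCI57.act (zeta (Φ.d i₂.1)) h v.1)
          (chi (a i₁) g * chi (a i₂) h) := by
    rw [op2x, Finsupp.linearCombination_single, one_smul]
  rw [hop]
  unfold sl2_L
  rw [LinearMap.sum_apply]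
  refine Finset.sum_congr rfl fun g _ => ?_
  rw [map_sum]
  refine Finset.sum_congr rfl fun g' _ => ?_
  rw [map_sum]
  refine Finset.sum_congr rfl fun h' _ => ?_
  rw [LinearMap.smul_apply, LinearMap.comp_apply, Finsupp.lmapDomain_apply,
    Finsupp.mapDomain_single]
  have h2 : sl2_pt (actP g p) i₁ i₂
      (DCI57.act (zeta (Φ.d i₁.1)) g' u.1, DCI57.act (zeta (Φ.d i₂.1)) h' v.1) =
      actP (Function.update (Function.update g i₁ g') i₂ h') (sl2_up p i₁ i₂ u v) := by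
    rw [← act_rtv_val, ← act_rtv_val, sl2_pt_of_mem _ _ _ (Φ.act i₁.1 (rtv g') u).2
      (Φ.act i₂.1 (rtv h') v).2]
    funext i
    by_cases hi2 : i = i₂
    · subst hi2
      simp only [actP, sl2_up, Function.update_self]
      rfl
    · by_cases hi1 : i = i₁
      · subst hi1
        simp only [actP, sl2_up, Function.update_of_ne hi2, Function.update_self]
        rfl
      · simp only [actP, sl2_up, Function.update_of_ne hi2, Function.update_of_ne hi1]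
  have h1 : Finsupp.single (sl2_pt (actP g p) i₁ i₂
      (DCI57.act (zeta (Φ.d i₁.1)) g' u.1, DCI57.act (zeta (Φ.d i₂.1)) h' v.1))
      (chi (a i₁) g' * chi (a i₂) h') = (chi (a i₁) g' * chi (a i₂) h') •
        Finsupp.single (actP (Function.update (Function.update g i₁ g') i₂ h')
          (sl2_up p i₁ i₂ u v)) (1 : ℂ) := by
    rw [Finsupp.smul_single, smul_eq_mul, mul_one, h2]
  rw [h1, map_smul, smul_smul]
  have h3 : ∏ i, psi (∑ j, a i j * Function.update (Function.update g i₁ g') i₂ h' i j) =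
      (∏ i, if i = i₁ ∨ i = i₂ then 1 else psi (∑ j, a i j * g i j)) *
        (psi (∑ j, a i₁ j * g' j) * psi (∑ j, a i₂ j * h' j)) := by
    rw [sl2_split i₁ i₂ hi fun i =>
      psi (∑ j, a i j * Function.update (Function.update g i₁ g') i₂ h' i j)]
    congr 1
    · refine Finset.prod_congr rfl fun i _ => ?_
      by_cases h : i = i₁ ∨ i = i₂
      · rw [if_pos h, if_pos h]
      · rw [if_neg h, if_neg h]
        push Not at h
        rw [Function.update_of_ne h.2, Function.update_of_ne h.1]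
    · rw [Function.update_self, Function.update_of_ne hi, Function.update_self]
  have h4 : F (Function.update (Function.update g i₁ g') i₂ h') =
      (∏ i, psi (∑ j, a i j * Function.update (Function.update g i₁ g') i₂ h' i j)) •
        cl (actP (Function.update (Function.update g i₁ g') i₂ h')
          (sl2_up p i₁ i₂ u v)) := rfl
  rw [h4, h3]
  rfl

omit [Fintype S] [DecidableEq S] [∀ s, NeZero (Φ.d s)] in
private theorem sl2_cancel {n n' : ℕ} (hn : n ≠ 0) (hn' : n' ≠ 0) {x : Φ.V m}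
    (h : n • n' • x = 0) : x = 0 := by
  have hc : (n : ℂ) ≠ 0 := Nat.cast_ne_zero.2 hn
  have hc' : (n' : ℂ) ≠ 0 := Nat.cast_ne_zero.2 hn'
  rw [← Nat.cast_smul_eq_nsmul ℂ, ← Nat.cast_smul_eq_nsmul ℂ] at h
  exact (smul_eq_zero.1 ((smul_eq_zero.1 h).resolve_left hc)).resolve_left hc'

theorem E_zero_of_op2x (a : ∀ i : Idx m, Fin (Φ.N i.1) → ZMod (Φ.d i.1)) (p : Pts Φ.P m)
    (i₁ i₂ : Idx m) (hi : i₁ ≠ i₂)
    (h : op2x (zeta (Φ.d i₁.1)) (zeta (Φ.d i₂.1)) (chi (a i₁)) (chi (a i₂))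
      (Finsupp.single ((p i₁).1, (p i₂).1) 1) ∈
        ratEquiv2x ℂ (Diag (Φ.d i₁.1) (Φ.c i₁.1)) (Diag (Φ.d i₂.1) (Φ.c i₂.1))) :
    E a p = 0 := by
  have h1 := sl2_L_op a p i₁ i₂ hi (p i₁) (p i₂)
  rw [sl2_L_zero a p i₁ i₂ h] at h1
  have h2 : sl2_up p i₁ i₂ (p i₁) (p i₂) = p := by
    simp only [sl2_up, Function.update_eq_self]
  rw [h2] at h1
  exact sl2_cancel Fintype.card_ne_zero Fintype.card_ne_zero h1.symm

theorem E_swap_of_op2x (a : ∀ i : Idx m, Fin (Φ.N i.1) → ZMod (Φ.d i.1)) (p : Pts Φ.P m)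
    (s : S) (l₁ l₂ : Fin (m s)) (hl : l₁ ≠ l₂) (haa : a ⟨s, l₁⟩ = a ⟨s, l₂⟩) (n : ℕ)
    (h : op2x (zeta (Φ.d s)) (zeta (Φ.d s)) (chi (a ⟨s, l₁⟩)) (chi (a ⟨s, l₁⟩))
        (Finsupp.single ((p ⟨s, l₁⟩).1, (p ⟨s, l₂⟩).1) 1) -
      (-1 : ℂ) ^ n • op2x (zeta (Φ.d s)) (zeta (Φ.d s)) (chi (a ⟨s, l₁⟩)) (chi (a ⟨s, l₁⟩))
        (Finsupp.single ((p ⟨s, l₂⟩).1, (p ⟨s, l₁⟩).1) 1) ∈
        ratEquiv2x ℂ (Diag (Φ.d s) (Φ.c s)) (Diag (Φ.d s) (Φ.c s))) :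
    E a (permP (Function.update (1 : ∀ s, Equiv.Perm (Fin (m s))) s (Equiv.swap l₁ l₂)) p) =
      (-1 : ℂ) ^ n • E a p := by
  have hi : (⟨s, l₁⟩ : Idx m) ≠ ⟨s, l₂⟩ := fun h => hl (eq_of_heq (Sigma.mk.inj h).2)
  have h1 := sl2_L_op a p ⟨s, l₁⟩ ⟨s, l₂⟩ hi (p ⟨s, l₁⟩) (p ⟨s, l₂⟩)
  have h1' := sl2_L_op a p ⟨s, l₁⟩ ⟨s, l₂⟩ hi (p ⟨s, l₂⟩) (p ⟨s, l₁⟩)
  dsimp only at h1 h1'
  rw [← haa] at h1 h1'
  have h2 : sl2_up p ⟨s, l₁⟩ ⟨s, l₂⟩ (p ⟨s, l₁⟩) (p ⟨s, l₂⟩) = p := by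
    simp only [sl2_up, Function.update_eq_self]
  have h2' : sl2_up p ⟨s, l₁⟩ ⟨s, l₂⟩ (p ⟨s, l₂⟩) (p ⟨s, l₁⟩) =
      permP (Function.update (1 : ∀ s, Equiv.Perm (Fin (m s))) s (Equiv.swap l₁ l₂)) p := by
    funext i
    by_cases hi2 : i = ⟨s, l₂⟩
    · subst hi2
      have e : (Function.update (1 : ∀ s, Equiv.Perm (Fin (m s))) s (Equiv.swap l₁ l₂)) s l₂ =
          l₁ := by
        rw [Function.update_self, Equiv.swap_apply_right]
      simp only [sl2_up, permP, Function.update_self]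
      rw [e]
    · by_cases hi1 : i = ⟨s, l₁⟩
      · subst hi1
        have e : (Function.update (1 : ∀ s, Equiv.Perm (Fin (m s))) s (Equiv.swap l₁ l₂)) s l₁ =
            l₂ := by
          rw [Function.update_self, Equiv.swap_apply_left]
        simp only [sl2_up, permP, Function.update_of_ne hi2, Function.update_self]
        rw [e]
      · obtain ⟨s', l⟩ := i
        simp only [sl2_up, permP, Function.update_of_ne hi2, Function.update_of_ne hi1]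
        by_cases hs : s' = s
        · subst hs
          have e1 : l ≠ l₁ := fun h => hi1 (by rw [h])
          have e2 : l ≠ l₂ := fun h => hi2 (by rw [h])
          rw [Function.update_self, Equiv.swap_apply_of_ne_of_ne e1 e2]
        · rw [Function.update_of_ne hs]
          rfl
  rw [h2] at h1
  rw [h2'] at h1'
  have h3 := sl2_L_zero a p ⟨s, l₁⟩ ⟨s, l₂⟩ h
  rw [map_sub, map_smul, h1, h1'] at h3
  have h4 : Fintype.card (Fin (Φ.N s) → ZMod (Φ.d s)) •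
      Fintype.card (Fin (Φ.N s) → ZMod (Φ.d s)) • (E a p - (-1 : ℂ) ^ n •
        E a (permP (Function.update (1 : ∀ s, Equiv.Perm (Fin (m s))) s (Equiv.swap l₁ l₂)) p)) =
      0 := by
    rw [smul_sub, smul_sub, ← h3]
    congr 1
    rw [smul_comm _ ((-1 : ℂ) ^ n), smul_comm _ ((-1 : ℂ) ^ n)]
  have h5 := sub_eq_zero.1 (sl2_cancel Fintype.card_ne_zero Fintype.card_ne_zero h4)
  rw [h5, smul_smul, ← mul_pow]
  norm_num

end Pool.Agent.BBP
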